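import Pool.Agent.Helper15.AB.GoalsT
import Pool.Agent.Helper95.Lin.Basics

/-! # Packet LINV of project AB (MP_1ef41b_an): local holomorphic inverses. -/

open MeasureTheory Set Filter Topology
open scoped ContDiff

noncomputable section

namespace Pool.Agent.Helper57.AB

open Pool.Agent.Helper24.AB Pool.Agent.Helper15.AB

theorem linv_aux {η : ℝ} (hO : IsOpen (Unb η)) {Θ : V4 → V4} (hΘ : IsEmb η Θ) {P : V4}
    (hP : P ∈ Unb η) : ∃ (S : Set V4) (Ψ : V4 → V4),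
  IsOpen S ∧ Θ P ∈ S ∧ DifferentiableOn ℂ Ψ S ∧ Ψ (Θ P) = P ∧
    (∀ z ∈ S, Ψ z ∈ Unb η ∧ Θ (Ψ z) = z) ∧ ∀ᶠ Q in 𝓝 P, Θ Q ∈ S ∧ Ψ (Θ Q) = Q := by
  have hsm : ContDiffOn ℂ ∞ Θ (Unb η) := Pool.Agent.Helper95.Lin.holo_contDiffOn hO hΘ.holo
  have hAt : ContDiffAt ℂ ∞ Θ P := hsm.contDiffAt (hO.mem_nhds hP)
  have hder : ∀ Q ∈ Unb η, ∃ e : V4 ≃L[ℂ] V4, HasFDerivAt Θ (e : V4 →L[ℂ] V4) Q := by
    intro Q hQ
    have hd : HasFDerivAt Θ (fderiv ℂ Θ Q) Q :=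
      (hΘ.holo.differentiableAt (hO.mem_nhds hQ)).hasFDerivAt
    refine ⟨ContinuousLinearMap.toContinuousLinearEquivOfDetNeZero (fderiv ℂ Θ Q)
      (hΘ.der Q hQ), ?_⟩
    simpa using hd
  obtain ⟨e, he⟩ := hder P hP
  set f := hAt.toOpenPartialHomeomorph Θ he (by simp) with hf
  have hfc : (f : V4 → V4) = Θ := ContDiffAt.toOpenPartialHomeomorph_coe hAt he (by simp)
  have hPs : P ∈ f.source := ContDiffAt.mem_toOpenPartialHomeomorph_source hAt he (by simp)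
  have hPt : Θ P ∈ f.target := ContDiffAt.image_mem_toOpenPartialHomeomorph_target hAt he (by simp)
  have hinvP : f.symm (Θ P) = P := by
    have := f.left_inv hPs
    rwa [hfc] at this
  have hSo : IsOpen (f.target ∩ f.symm ⁻¹' (Unb η)) := f.isOpen_inter_preimage_symm hO
  have hPS : Θ P ∈ f.target ∩ f.symm ⁻¹' (Unb η) := ⟨hPt, by
    rw [mem_preimage, hinvP]; exact hP⟩
  refine ⟨f.target ∩ f.symm ⁻¹' (Unb η), f.symm, hSo, hPS, ?_, hinvP, ?_, ?_⟩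
  · rintro z ⟨hz, hz'⟩
    obtain ⟨e', he'⟩ := hder (f.symm z) hz'
    have h1 : HasFDerivAt f (e' : V4 →L[ℂ] V4) (f.symm z) := by rw [hfc]; exact he'
    exact (f.hasFDerivAt_symm hz h1).differentiableAt.differentiableWithinAt
  · rintro z ⟨hz, hz'⟩
    refine ⟨hz', ?_⟩
    have := f.right_inv hz
    rwa [hfc] at this
  · have h1 : ∀ᶠ Q in 𝓝 P, Q ∈ f.source := f.open_source.mem_nhds hPs
    have hc : ContinuousAt Θ P := hAt.continuousAt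
    have h2 : ∀ᶠ Q in 𝓝 P, Θ Q ∈ f.target ∩ f.symm ⁻¹' (Unb η) := hc (hSo.mem_nhds hPS)
    filter_upwards [h1, h2] with Q hQ hQ'
    refine ⟨hQ', ?_⟩
    have := f.left_inv hQ
    rwa [hfc] at this

/-- PACKET LINV. -/
theorem linv (hUNB : S_UNB) : S_LINV := fun η _ hΘ _ hP => linv_aux (hUNB η).1 hΘ hP

end Pool.Agent.Helper57.AB
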