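import Pool.Agent.Helper57.AB.GRL
import Pool.Agent.Helper57.AB.LINV

/-! # Packet DFN of project AB (MP_1ef41b_an): the defining function of the image of a tube. -/

open MeasureTheory Set Filter Topology
open scoped ContDiff

noncomputable section

namespace Pool.Agent.Helper57.AB

open Pool.Agent.Helper24.AB Pool.Agent.Helper15.AB

/-- The wide slab `|Re P₃| < 3a/2`. -/
def slab (a : ℝ) : Set V4 := {P | |(P 3).re| < 3 * a / 2}

theorem slab_open (a : ℝ) : IsOpen (slab a) :=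
  isOpen_lt ((continuous_abs.comp Complex.continuous_re).comp (continuous_apply 3))
    continuous_const

open Classical in
/-- the function `r ∘ Θ⁻¹` -/
def rho (η a : ℝ) (r : V4 → ℝ) (Θ : V4 → V4) (z : V4) : ℝ :=
  if h : ∃ P, P ∈ Unb η ∧ P ∈ slab a ∧ Θ P = z then r h.choose else 0

theorem rho_apply {η a : ℝ} {r : V4 → ℝ} {W : Set V4} {Θ : V4 → V4} (hT : IsTube η a r W)
    (hΘ : IsEmb η Θ) {P : V4} (hP : P ∈ Unb η) (hs : P ∈ slab a) :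
    rho η a r Θ (Θ P) = r P := by
  have h : ∃ Q, Q ∈ Unb η ∧ Q ∈ slab a ∧ Θ Q = Θ P := ⟨P, hP, hs, rfl⟩
  unfold rho
  rw [dif_pos h]
  obtain ⟨h1, _, h3⟩ := h.choose_spec
  exact inv_gam r hT.inv_g hT.inv_t _ _ (hΘ.inj P hP _ h1 h3.symm)

/-- Locally on the image, `ρ = r ∘ Ψ`. -/
theorem rho_local (hLINV : S_LINV) {η a : ℝ} {r : V4 → ℝ} {W : Set V4} {Θ : V4 → V4}
    (hT : IsTube η a r W) (hΘ : IsEmb η Θ) {P : V4} (hP : P ∈ Unb η) (hs : P ∈ slab a) :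
    ∃ (N : Set V4) (Ψ : V4 → V4), IsOpen N ∧ Θ P ∈ N ∧ N ⊆ Θ '' (Unb η ∩ slab a) ∧
      DifferentiableOn ℂ Ψ N ∧ Ψ (Θ P) = P ∧ MapsTo Ψ N (slab a) ∧
      ∀ z ∈ N, rho η a r Θ z = r (Ψ z) := by
  obtain ⟨S, Ψ, hS, hPS, hΨ, hΨP, hinv, _⟩ := hLINV η Θ hΘ P hP
  have hN : IsOpen (S ∩ Ψ ⁻¹' slab a) :=
    hΨ.continuousOn.isOpen_inter_preimage hS (slab_open a)
  refine ⟨S ∩ Ψ ⁻¹' slab a, Ψ, hN, ⟨hPS, ?_⟩, ?_, hΨ.mono inter_subset_left, hΨP,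
    fun z hz => hz.2, ?_⟩
  · rw [mem_preimage, hΨP]; exact hs
  · rintro z ⟨hz, hz'⟩
    obtain ⟨h1, h2⟩ := hinv z hz
    exact ⟨Ψ z, ⟨h1, hz'⟩, h2⟩
  · rintro z ⟨hz, hz'⟩
    obtain ⟨h1, h2⟩ := hinv z hz
    rw [← rho_apply hT hΘ h1 hz', h2]

/-- PACKET DFN. -/
theorem dfn (hUNB : S_UNB) (hCLW : S_CLW) (hIMG : S_IMG) : S_DFN := by
  intro η a r W Θ hT hΘ
  have hO : IsOpen (Unb η) := (hUNB η).1
  have hLINV : S_LINV := linv hUNB
  obtain ⟨hWo, hcl, hclr, _, _⟩ := hCLW η a r W hT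
  obtain ⟨_, hΘW, _, _, hclΘ, _, _⟩ := hIMG η a r W Θ hT hΘ
  have ha := hT.a_pos
  have hclslab : closure W ⊆ slab a := by
    intro P hP
    have := (hcl P hP).1
    show |(P 3).re| < 3 * a / 2
    linarith
  have hWcl : W ⊆ closure W := subset_closure
  have hrs : IsOpen {P : V4 | |(P 3).re| < 3 * a / 2} := slab_open a
  have hsm : ContDiffOn ℝ ∞ (rho η a r Θ) (Θ '' (Unb η ∩ slab a)) := by
    rintro z ⟨P, ⟨hP, hs⟩, rfl⟩
    obtain ⟨N, Ψ, hN, hPN, _, hΨ, hΨP, hΨs, hρ⟩ := rho_local hLINV hT hΘ hP hs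
    have h1 : ContDiffOn ℝ ∞ Ψ N := Pool.Agent.Helper95.Lin.holo_contDiffOn_real hN hΨ
    have h2 : ContDiffOn ℝ ∞ (fun z => r (Ψ z)) N := hT.smooth.comp h1 hΨs
    have h3 : ContDiffAt ℝ ∞ (fun z => r (Ψ z)) (Θ P) := h2.contDiffAt (hN.mem_nhds hPN)
    refine (h3.congr_of_eventuallyEq ?_).contDiffWithinAt
    filter_upwards [hN.mem_nhds hPN] with z hz using hρ z hz
  have hUo : IsOpen (Θ '' (Unb η ∩ slab a)) := by
    rw [isOpen_iff_mem_nhds]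
    rintro z ⟨P, ⟨hP, hs⟩, rfl⟩
    obtain ⟨N, Ψ, hN, hPN, hNs, _⟩ := rho_local hLINV hT hΘ hP hs
    exact mem_of_superset (hN.mem_nhds hPN) hNs
  refine ⟨rho η a r Θ, ⟨Θ '' (Unb η ∩ slab a), hUo, ?_, hsm, ?_, ?_⟩,
    fun P hP hs => rho_apply hT hΘ hP hs⟩
  · rw [hclΘ]
    exact image_mono (subset_inter hT.sub hclslab)
  · ext z
    constructor
    · rintro ⟨P, hP, rfl⟩
      have h1 := hT.sub (hWcl hP)
      have h2 := hclslab (hWcl hP)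
      refine ⟨⟨P, ⟨h1, h2⟩, rfl⟩, ?_⟩
      rw [rho_apply hT hΘ h1 h2]
      have : P ∈ {P : V4 | |(P 3).re| < 3 * a / 2 ∧ r P < 0} := hT.eqW ▸ hP
      exact this.2
    · rintro ⟨⟨P, ⟨h1, h2⟩, rfl⟩, h3⟩
      rw [rho_apply hT hΘ h1 h2] at h3
      refine ⟨P, ?_, rfl⟩
      rw [hT.eqW]
      exact ⟨h2, h3⟩
  · intro z hz hzero
    rw [frontier, hΘW.interior_eq, hclΘ] at hz
    obtain ⟨⟨P, hP, rfl⟩, hz2⟩ := hz
    have hPW : P ∉ W := fun h => hz2 ⟨P, h, rfl⟩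
    have h0 : r P = 0 := hclr P hP hPW
    have hPU := hT.sub hP
    have hPs := hclslab hP
    have hd := hT.dr P hPs h0
    apply hd
    have h1 : r =ᶠ[𝓝 P] (fun Q => rho η a r Θ (Θ Q)) := by
      filter_upwards [hO.mem_nhds hPU, (slab_open a).mem_nhds hPs] with Q hQ hQ'
      exact (rho_apply hT hΘ hQ hQ').symm
    have h2 : DifferentiableAt ℝ (rho η a r Θ) (Θ P) := by
      have : ContDiffAt ℝ ∞ (rho η a r Θ) (Θ P) :=
        hsm.contDiffAt (hUo.mem_nhds ⟨P, ⟨hPU, hPs⟩, rfl⟩)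
      exact this.differentiableAt (by simp)
    have h3 : DifferentiableAt ℝ Θ P := by
      have : DifferentiableAt ℂ Θ P := hΘ.holo.differentiableAt (hO.mem_nhds hPU)
      exact this.restrictScalars ℝ
    rw [h1.fderiv_eq]
    have h4 : HasFDerivAt (fun Q => rho η a r Θ (Θ Q))
        ((fderiv ℝ (rho η a r Θ) (Θ P)).comp (fderiv ℝ Θ P)) P :=
      HasFDerivAt.comp P h2.hasFDerivAt h3.hasFDerivAt
    rw [h4.fderiv, hzero, ContinuousLinearMap.zero_comp]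

end Pool.Agent.Helper57.AB
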