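import Pool.Agent.Helper57.AB.PER
import Pool.Agent.Helper57.AB.DFN

/-! # Packet DATA of project AB (MP_1ef41b_an): the data `R = ρ ∘ Θ`. -/

open MeasureTheory Set Filter Topology
open scoped ContDiff

noncomputable section

namespace Pool.Agent.Helper57.AB

open Pool.Agent.Helper24.AB Pool.Agent.Helper15.AB

/-- top points are limits of inner points -/
theorem top_mem_closure {W : Set V4} {q m : ℝ} (hm : 0 < m) {w : ℂ}
    (hin : ∀ (z : ℂ) (x y u : ℝ), q - m < z.re → z.re < q → zP z x y u w ∈ W)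
    (z : ℂ) (x y u : ℝ) (hz : z.re = q) : zP z x y u w ∈ closure W := by
  have hc : Tendsto (fun τ : ℝ => zP z x y u w + τ • eP) (𝓝[<] 0)
      (𝓝 (zP z x y u w + (0 : ℝ) • eP)) := by
    have : Continuous (fun τ : ℝ => zP z x y u w + τ • eP) := by fun_prop
    exact (this.tendsto 0).mono_left nhdsWithin_le_nhds
  rw [zero_smul, add_zero] at hc
  refine mem_closure_of_tendsto hc ?_
  have h1 : ∀ᶠ τ : ℝ in 𝓝[<] 0, -m < τ :=
    nhdsWithin_le_nhds (lt_mem_nhds (by linarith))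
  filter_upwards [h1, self_mem_nhdsWithin] with τ h1 h2
  rw [per.2.2.2]
  have h3 : (z + (τ : ℂ)).re = z.re + τ := by simp
  apply hin
  · rw [h3, hz]; linarith
  · rw [h3, hz]
    have : τ < 0 := h2
    linarith

/-- PACKET DATA. -/
theorem data (hGRL : S_GRL) (hUNB : S_UNB) (hCLW : S_CLW) (hIMG : S_IMG) (hLEVC : S_LEVC)
    (hPSHL : S_PSHL) (hGRD : S_GRD) (hTOPX : S_TOPX) : S_DATA := by
  intro η a A δ₀ ρ₀ Θ s p B hΘ hs hp hT ee ρ he0 he1 hρ hpsh
  obtain ⟨Uρ, hUρ, hclU, hρs, hΩ, hdρ⟩ := hρ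
  obtain ⟨tin, ttop, tper, tsm, tmp, tmc, _⟩ := hTOPX η a A δ₀ ρ₀ s p B hs hp hT
  have hO : IsOpen (Unb η) := (hUNB η).1
  set W : Set V4 := Omt a A s p with hW
  obtain ⟨hWo, hcl, _, _, _⟩ := hCLW η a _ W hT
  obtain ⟨_, hΘW, _, _, hclΘ, hbW, hbc⟩ := hIMG η a _ W Θ hT hΘ
  have hUo : IsOpen (Unb η ∩ Θ ⁻¹' Uρ) := hΘ.holo.continuousOn.isOpen_inter_preimage hO hUρ
  have hclUU : closure W ⊆ Unb η ∩ Θ ⁻¹' Uρ := by
    intro P hP
    refine ⟨hT.sub hP, ?_⟩
    apply hclU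
    rw [hclΘ]
    exact ⟨P, hP, rfl⟩
  have hΘs : ContDiffOn ℝ ∞ Θ (Unb η) := Pool.Agent.Helper95.Lin.holo_contDiffOn_real hO hΘ.holo
  have hRs : ContDiffOn ℝ ∞ (fun P => ρ (Θ P)) (Unb η ∩ Θ ⁻¹' Uρ) :=
    hρs.comp (hΘs.mono inter_subset_left) fun P hP => hP.2
  have hneg : ∀ P ∈ W, ρ (Θ P) < 0 := by
    intro P hP
    have : Θ P ∈ {z | z ∈ Uρ ∧ ρ z < 0} := hΩ ▸ ⟨P, hP, rfl⟩
    exact this.2
  have hle : ∀ z ∈ closure (Θ '' W), ρ z ≤ 0 := by
    intro z hz
    have hc : ContinuousWithinAt ρ (Θ '' W) z := by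
      have := hρs.continuousOn z (hclU hz)
      exact this.mono (subset_closure.trans hclU)
    have := hc.mem_closure_image hz
    have h2 : closure (ρ '' (Θ '' W)) ⊆ Iic 0 := by
      apply closure_minimal _ isClosed_Iic
      rintro _ ⟨z, hz, rfl⟩
      have : z ∈ {z | z ∈ Uρ ∧ ρ z < 0} := hΩ ▸ hz
      exact this.2.le
    exact h2 this
  have htopcl : ∀ w ∈ strip (a / 2), ∀ (z : ℂ) (x y u : ℝ), z.re = qf A p w →
      zP z x y u w ∈ closure W := by
    intro w hw z x y u hz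
    exact top_mem_closure (tmp w hw) (tin w hw) z x y u hz
  have htopn : ∀ w ∈ strip (a / 2), ∀ (z : ℂ) (x y u : ℝ), z.re = qf A p w →
      Θ (zP z x y u w) ∉ Θ '' W := by
    intro w hw z x y u hz h
    have h1 : zP z x y u w ∈ W := hbW _ (hT.sub (htopcl w hw z x y u hz)) h
    have h2 : rfun a A s p (zP z x y u w) < 0 := h1.2
    rw [(ttop w hw z x y u hz).1] at h2
    exact lt_irrefl _ h2
  have htop0 : ∀ w ∈ strip (a / 2), ∀ (z : ℂ) (x y u : ℝ), z.re = qf A p w →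
      ρ (Θ (zP z x y u w)) = 0 := by
    intro w hw z x y u hz
    have h1 := htopcl w hw z x y u hz
    have h2 : Θ (zP z x y u w) ∈ closure (Θ '' W) := by rw [hclΘ]; exact ⟨_, h1, rfl⟩
    apply le_antisymm (hle _ h2)
    by_contra h3
    push Not at h3
    apply htopn w hw z x y u hz
    rw [hΩ]
    exact ⟨hclU h2, h3⟩
  refine ⟨Unb η ∩ Θ ⁻¹' Uρ, ?_⟩
  refine
    { ee_pos := he0
      ee_lt := he1
      a_pos := hs.a_pos
      openW := hWo
      openU := hUo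
      sub := hclUU
      mapU := ?_
      R_g := ?_
      R_t := ?_
      smooth := hRs
      neg := hneg
      psh := ?_
      q_smooth := tsm
      q_per := tper
      m_pos := tmp
      m_cont := tmc
      inner := tin
      topU := fun w hw z x y u hz => hclUU (htopcl w hw z x y u hz)
      top0 := htop0
      top1 := ?_ }
  · rintro P ⟨hP, hP'⟩
    refine ⟨⟨hGRL.2.2.2.2.1 η P _ (hGRL.2.2.2.2.2.1 P) hP, ?_⟩, fun k =>
      ⟨hGRL.2.2.2.2.1 η P _ (hGRL.2.2.2.2.2.2 P k) hP, ?_⟩⟩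
    · rw [mem_preimage, hΘ.inv_g P hP]; exact hP'
    · rw [mem_preimage, hΘ.inv_t P hP k]; exact hP'
  · rintro P ⟨hP, _⟩
    rw [hΘ.inv_g P hP]
  · rintro P ⟨hP, _⟩ k
    rw [hΘ.inv_t P hP k]
  · intro P hP ξ
    have hPU : P ∈ Unb η := (hclUU (subset_closure hP)).1
    have hΘP : Θ P ∈ Θ '' W := ⟨P, hP, rfl⟩
    have hsm : ContDiffOn ℝ 2 (fun z => -((-ρ z) ^ ee)) (Θ '' W) := by
      have h1 : ContDiffOn ℝ 2 ρ (Θ '' W) :=
        (hρs.mono (subset_closure.trans hclU)).of_le (by norm_cast)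
      refine (h1.neg.rpow_const_of_ne fun z hz => ?_).neg
      have : z ∈ {z | z ∈ Uρ ∧ ρ z < 0} := hΩ ▸ hz
      have h2 := this.2
      have h3 : 0 < -ρ z := by linarith
      exact h3.ne'
    have h1 := hLEVC (Unb η) Θ (fun z => -((-ρ z) ^ ee)) P hO hΘ.holo hPU
      (hsm.contDiffAt (hΘW.mem_nhds hΘP)) ξ
    rw [h1]
    exact hPSHL (Θ '' W) _ hΘW hsm hpsh _ hΘP _
  · intro w hw z x y u hz
    set Q : V4 := zP z x y u w with hQ
    have hQcl : Q ∈ closure W := htopcl w hw z x y u hz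
    have hQU := hclUU hQcl
    have hr := ttop w hw z x y u hz
    have ha := hs.a_pos
    have hQs : Q ∈ slab a := by
      have := (hcl Q hQcl).1
      show |(Q 3).re| < 3 * a / 2
      linarith
    have hrd : DifferentiableAt ℝ (rfun a A s p) Q :=
      (hT.smooth.contDiffAt ((slab_open a).mem_nhds hQs)).differentiableAt (by simp)
    have hRd : DifferentiableAt ℝ (fun P => ρ (Θ P)) Q :=
      (hRs.contDiffAt (hUo.mem_nhds hQU)).differentiableAt (by simp)
    have hfr : Θ Q ∈ frontier (Θ '' W) := by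
      rw [frontier, hΘW.interior_eq, hclΘ]
      exact ⟨⟨Q, hQcl, rfl⟩, htopn w hw z x y u hz⟩
    have hρd : DifferentiableAt ℝ ρ (Θ Q) :=
      (hρs.contDiffAt (hUρ.mem_nhds hQU.2)).differentiableAt (by simp)
    have hdC : HasFDerivAt Θ (fderiv ℂ Θ Q) Q :=
      (hΘ.holo.differentiableAt (hO.mem_nhds hQU.1)).hasFDerivAt
    have hdR : HasFDerivAt Θ ((fderiv ℂ Θ Q).restrictScalars ℝ) Q := hdC.restrictScalars ℝ
    have hcomp : HasFDerivAt (fun P => ρ (Θ P))
        ((fderiv ℝ ρ (Θ Q)).comp ((fderiv ℂ Θ Q).restrictScalars ℝ)) Q :=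
      HasFDerivAt.comp Q hρd.hasFDerivAt hdR
    have hRne : fderiv ℝ (fun P => ρ (Θ P)) Q ≠ 0 := by
      rw [hcomp.fderiv]
      intro h0
      apply hdρ _ hfr
      ext v
      have hdet := hΘ.der Q hQU.1
      set e := ContinuousLinearMap.toContinuousLinearEquivOfDetNeZero (fderiv ℂ Θ Q) hdet with he
      have h1 : fderiv ℂ Θ Q (e.symm v) = v := e.apply_symm_apply v
      have h3 := congrArg (fun L : V4 →L[ℝ] ℝ => L (e.symm v)) h0
      simp only [ContinuousLinearMap.comp_apply, ContinuousLinearMap.coe_restrictScalars',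
        zero_apply] at h3
      rw [h1] at h3
      simpa using h3
    obtain ⟨c, hc, hce⟩ := hGRD (rfun a A s p) (fun P => ρ (Θ P)) Q hrd hRd hr.1
      (htop0 w hw z x y u hz) (hT.dr Q hQs hr.1) hRne (by
        filter_upwards [(slab_open a).mem_nhds hQs] with P hP hlt
        exact (hneg P ⟨hP, hlt⟩).le)
    rw [hce]
    show 0 < c * fderiv ℝ (rfun a A s p) Q eP
    exact mul_pos hc hr.2

end Pool.Agent.Helper57.AB
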