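import Pool.Agent.Helper15.AB.GoalsT
import Pool.Agent.Helper95.Lin.Basics

/-! # Packet FHAT of project AB (MP_1ef41b_an). -/

open MeasureTheory Set Filter Topology
open scoped ContDiff

noncomputable section

namespace Pool.Agent.Helper57.AB

open Pool.Agent.Helper24.AB Pool.Agent.Helper15.AB

theorem det_comp' (A B : V4 →L[ℂ] V4) : (A.comp B).det = A.det * B.det := by
  exact LinearMap.det_comp (A : V4 →ₗ[ℂ] V4) (B : V4 →ₗ[ℂ] V4)

theorem det_eq_matrix (A : V4 →L[ℂ] V4) :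
    A.det = Matrix.det (Matrix.of fun i j => A (Pi.single j 1) i) := by
  unfold ContinuousLinearMap.det
  rw [← LinearMap.det_toMatrix']
  congr 1

theorem det_holo {U : Set V4} {F : V4 → (V4 →L[ℂ] V4)} (hF : DifferentiableOn ℂ F U) :
    DifferentiableOn ℂ (fun P => (F P).det) U := by
  have h1 : (fun P => (F P).det) = fun P => ∑ σ : Equiv.Perm (Fin 4),
      ((Equiv.Perm.sign σ : ℤ) : ℂ) * ∏ i, F P (Pi.single i 1) (σ i) := by
    funext P
    rw [det_eq_matrix, Matrix.det_apply']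
    rfl
  rw [h1]
  refine DifferentiableOn.fun_sum fun σ _ => ?_
  refine DifferentiableOn.const_mul ?_ _
  have h3 : ∀ i, DifferentiableOn ℂ (fun P => F P (Pi.single i 1) (σ i)) U := by
    intro i
    have h2 : DifferentiableOn ℂ (fun P => F P (Pi.single i 1)) U :=
      hF.clm_apply (differentiableOn_const _)
    exact (differentiableOn_pi.1 h2) (σ i)
  simp only [Fin.prod_univ_four]
  exact (((h3 0).mul (h3 1)).mul (h3 2)).mul (h3 3)

/-- The determinant is invariant under every element of `Γ`. -/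
theorem det_inv {η : ℝ} (hO : IsOpen (Unb η)) {Θ : V4 → V4} (hΘ : IsEmb η Θ) {P : V4}
    (hP : P ∈ Unb η) {L : V4 ≃L[ℂ] V4} {c : V4} (hL : (L : V4 →L[ℂ] V4).det = 1)
    (hm : L P + c ∈ Unb η) (hi : ∀ Q ∈ Unb η, Θ (L Q + c) = Θ Q) :
    (fderiv ℂ Θ (L P + c)).det = (fderiv ℂ Θ P).det := by
  have h1 : HasFDerivAt (fun Q => L Q + c) (L : V4 →L[ℂ] V4) P :=
    (L : V4 →L[ℂ] V4).hasFDerivAt.add_const c
  have h2 : HasFDerivAt Θ (fderiv ℂ Θ (L P + c)) (L P + c) :=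
    (hΘ.holo.differentiableAt (hO.mem_nhds hm)).hasFDerivAt
  have h3 : HasFDerivAt (fun Q => Θ (L Q + c))
      ((fderiv ℂ Θ (L P + c)).comp (L : V4 →L[ℂ] V4)) P :=
    HasFDerivAt.comp P h2 h1
  have h4 : (fun Q => Θ (L Q + c)) =ᶠ[𝓝 P] Θ := by
    filter_upwards [hO.mem_nhds hP] with Q hQ using hi Q hQ
  have h5 : fderiv ℂ Θ P = (fderiv ℂ Θ (L P + c)).comp (L : V4 →L[ℂ] V4) := by
    rw [← h3.fderiv]
    exact h4.fderiv_eq.symm
  rw [h5, det_comp', hL, mul_one]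

theorem fhat_det (hAFF : S_AFF) (hGRL : S_GRL) {η : ℝ} (hO : IsOpen (Unb η)) {Θ : V4 → V4}
    (hΘ : IsEmb η Θ) : GamInv (Unb η) (fun P => (fderiv ℂ Θ P).det) := by
  intro P hP
  constructor
  · obtain ⟨L, c, hL, hLc⟩ := hAFF 1 0
    have e : ∀ Q : V4, gE Q = L Q + c := by
      intro Q
      rw [← hLc Q, zpow_one]
      funext i; fin_cases i <;> simp [tE]
    have hm : gE P ∈ Unb η := hGRL.2.2.2.2.1 η P _ (hGRL.2.2.2.2.2.1 P) hP
    have := det_inv hO hΘ hP hL (by rw [← e]; exact hm)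
      (fun Q hQ => by rw [← e]; exact hΘ.inv_g Q hQ)
    simp only
    rw [e P]
    exact this
  · intro k
    obtain ⟨L, c, hL, hLc⟩ := hAFF 0 k
    have e : ∀ Q : V4, tE k Q = L Q + c := by
      intro Q
      rw [← hLc Q, zpow_zero, Equiv.Perm.one_apply]
    have hm : tE k P ∈ Unb η := hGRL.2.2.2.2.1 η P _ (hGRL.2.2.2.2.2.2 P k) hP
    have := det_inv hO hΘ hP hL (by rw [← e]; exact hm)
      (fun Q hQ => by rw [← e]; exact hΘ.inv_t Q hQ k)
    simp only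
    rw [e P]
    exact this

theorem fhat_holo {η : ℝ} (hO : IsOpen (Unb η)) {Θ : V4 → V4} (hΘ : IsEmb η Θ) :
    DifferentiableOn ℂ (fun P => (fderiv ℂ Θ P).det) (Unb η) :=
  det_holo (Pool.Agent.Helper95.Lin.holo_fderiv hO hΘ.holo)

/-- PACKET FHAT. -/
theorem fhat (hAFF : S_AFF) (hGRL : S_GRL) (hUNB : S_UNB) (hIMG : S_IMG) : S_FHAT := by
  intro η a r W Θ hT hΘ
  have hO : IsOpen (Unb η) := (hUNB η).1
  obtain ⟨_, _, _, _, hcl, _, _⟩ := hIMG η a r W Θ hT hΘ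
  have hdet := fhat_det hAFF hGRL hO hΘ
  have hhol := fhat_holo hO hΘ
  refine ⟨hdet, hhol, fun f hf => ⟨?_, ?_⟩⟩
  · have h1 : ContDiffOn ℝ ∞ Θ (closure W) :=
      (Pool.Agent.Helper95.Lin.holo_contDiffOn_real hO hΘ.holo).mono hT.sub
    have h2 : ContDiffOn ℝ ∞ (fun P => (fderiv ℂ Θ P).det) (closure W) :=
      (Pool.Agent.Helper95.Lin.holo_contDiffOn_real hO hhol).mono hT.sub
    have h3 : MapsTo Θ (closure W) (closure (Θ '' W)) := by
      rw [hcl]; exact mapsTo_image _ _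
    exact (hf.comp h1 h3).mul h2
  · intro P hP
    have hPU := hT.sub hP
    have hd := hdet P hPU
    refine ⟨?_, fun k => ?_⟩
    · have h4 : (fderiv ℂ Θ (gE P)).det = (fderiv ℂ Θ P).det := hd.1
      simp only
      rw [h4, hΘ.inv_g P hPU]
    · have h4 : (fderiv ℂ Θ (tE k P)).det = (fderiv ℂ Θ P).det := hd.2 k
      simp only
      rw [h4, hΘ.inv_t P hPU k]

end Pool.Agent.Helper57.AB
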