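import Pool.Agent.Helper15.AB.GoalsT

/-! # Packet GRL of project AB (MP_1ef41b_an): the group `Γ`. -/

open MeasureTheory Set Filter Topology
open scoped ContDiff

noncomputable section

namespace Pool.Agent.Helper57.AB

open Pool.Agent.Helper24.AB Pool.Agent.Helper15.AB

theorem tE_zero (P : V4) : tE 0 P = P := by
  funext i; fin_cases i <;> simp [tE]

theorem tE_add (k l : Fin 3 → ℤ) (P : V4) : tE k (tE l P) = tE (k + l) P := by
  funext i; fin_cases i <;> simp [tE] <;> ring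

theorem gE_apply (P : V4) :
    gE P = ![2 * P 0 + P 1, P 0 + P 1, P 2, P 3 + 2 * Real.pi * Complex.I] := rfl

theorem gE_symm_apply (P : V4) :
    gE⁻¹ P = ![P 0 - P 1, 2 * P 1 - P 0, P 2, P 3 - 2 * Real.pi * Complex.I] := rfl

theorem gE_tE (k : Fin 3 → ℤ) (P : V4) :
    gE (tE k P) = tE (Jn k) (gE P) := by
  rw [gE_apply, gE_apply]
  funext i; fin_cases i <;> simp [tE, Jn] <;> ring

/-- the inverse of `Jn` -/
def Jni (J : Fin 3 → ℤ) : Fin 3 → ℤ := ![J 0 - J 1, 2 * J 1 - J 0, J 2]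

theorem gE_inv_tE (k : Fin 3 → ℤ) (P : V4) :
    gE⁻¹ (tE k P) = tE (Jni k) (gE⁻¹ P) := by
  rw [gE_symm_apply, gE_symm_apply]
  funext i; fin_cases i <;> simp [tE, Jni] <;> ring

theorem gE_zpow_tE (j : ℤ) : ∀ (k : Fin 3 → ℤ), ∃ k' : Fin 3 → ℤ, ∀ P : V4,
    (gE ^ j) (tE k P) = tE k' ((gE ^ j) P) := by
  induction j using Int.induction_on with
  | zero => intro k; exact ⟨k, fun P => by simp⟩
  | succ i ih =>
    intro k
    obtain ⟨k', hk'⟩ := ih (Jn k)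
    refine ⟨k', fun P => ?_⟩
    rw [zpow_add_one, Equiv.Perm.mul_apply, Equiv.Perm.mul_apply, gE_tE, hk']
  | pred i ih =>
    intro k
    obtain ⟨k', hk'⟩ := ih (Jni k)
    refine ⟨k', fun P => ?_⟩
    rw [zpow_sub_one, Equiv.Perm.mul_apply, Equiv.Perm.mul_apply, gE_inv_tE, hk']

theorem inv_zpow {X : Type*} (f : V4 → X) (hg : ∀ P, f (gE P) = f P) (j : ℤ) :
    ∀ P, f ((gE ^ j) P) = f P := by
  have hg' : ∀ P, f (gE⁻¹ P) = f P := by
    intro P
    have := hg (gE⁻¹ P)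
    rw [← this, ← Equiv.Perm.mul_apply, mul_inv_cancel, Equiv.Perm.one_apply]
  induction j using Int.induction_on with
  | zero => intro P; simp
  | succ i ih =>
    intro P
    rw [zpow_add_one, Equiv.Perm.mul_apply, ih, hg]
  | pred i ih =>
    intro P
    rw [zpow_sub_one, Equiv.Perm.mul_apply, ih, hg']

/-- functions invariant under the generators are invariant under `Γ` -/
theorem inv_gam {X : Type*} (f : V4 → X) (hg : ∀ P, f (gE P) = f P)
    (ht : ∀ P k, f (tE k P) = f P) (P P' : V4) (h : GamRel P P') : f P' = f P := by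
  obtain ⟨j, k, rfl⟩ := h
  rw [ht, inv_zpow f hg]

theorem exp_kap : Real.exp (kap * (2 * Real.pi)) = lam := by
  have h1 : kap * (2 * Real.pi) = Real.log lam := by
    unfold kap
    field_simp
  rw [h1]
  apply Real.exp_log
  unfold lam
  have : (0:ℝ) ≤ Real.sqrt 5 := Real.sqrt_nonneg 5
  linarith

theorem xp_gE (P : V4) : xp (gE P) = lam * xp P := by
  have h5 : Real.sqrt 5 * Real.sqrt 5 = 5 := Real.mul_self_sqrt (by norm_num)
  have e0 : (gE P) 0 = 2 * P 0 + P 1 := rfl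
  have e1 : (gE P) 1 = P 0 + P 1 := rfl
  have r0 : ((gE P) 0).re = 2 * (P 0).re + (P 1).re := by rw [e0]; simp
  have r1 : ((gE P) 1).re = (P 0).re + (P 1).re := by rw [e1]; simp
  unfold xp
  rw [r0, r1]
  unfold lam ph'
  have h6 : Real.sqrt 5 ≠ 0 := by positivity
  field_simp
  ring_nf
  rw [show Real.sqrt 5 ^ 2 = 5 by rw [sq]; exact h5]
  ring

theorem xm_gE (P : V4) : lam * xm (gE P) = xm P := by
  have h5 : Real.sqrt 5 * Real.sqrt 5 = 5 := Real.mul_self_sqrt (by norm_num)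
  have e0 : (gE P) 0 = 2 * P 0 + P 1 := rfl
  have e1 : (gE P) 1 = P 0 + P 1 := rfl
  have r0 : ((gE P) 0).re = 2 * (P 0).re + (P 1).re := by rw [e0]; simp
  have r1 : ((gE P) 1).re = (P 0).re + (P 1).re := by rw [e1]; simp
  unfold xm
  rw [r0, r1]
  unfold lam ph
  have h6 : Real.sqrt 5 ≠ 0 := by positivity
  field_simp
  ring_nf
  rw [show Real.sqrt 5 ^ 2 = 5 by rw [sq]; exact h5]
  ring

theorem im3_gE (P : V4) : ((gE P) 3).im = (P 3).im + 2 * Real.pi := by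
  have e3 : (gE P) 3 = P 3 + 2 * Real.pi * Complex.I := rfl
  rw [e3]; simp

theorem re3_gE (P : V4) : ((gE P) 3).re = (P 3).re := by
  have e3 : (gE P) 3 = P 3 + 2 * Real.pi * Complex.I := rfl
  rw [e3]; simp

theorem yp_gE (P : V4) : Real.exp (-(kap * ((gE P) 3).im)) * xp (gE P)
    = Real.exp (-(kap * (P 3).im)) * xp P := by
  rw [xp_gE, im3_gE]
  have : -(kap * ((P 3).im + 2 * Real.pi)) = -(kap * (P 3).im) - kap * (2 * Real.pi) := by ring
  rw [this, Real.exp_sub, exp_kap]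
  have hl : lam ≠ 0 := by
    unfold lam
    have : (0:ℝ) ≤ Real.sqrt 5 := Real.sqrt_nonneg 5
    positivity
  field_simp

theorem ym_gE (P : V4) : Real.exp (kap * ((gE P) 3).im) * xm (gE P)
    = Real.exp (kap * (P 3).im) * xm P := by
  rw [← xm_gE P, im3_gE]
  have : kap * ((P 3).im + 2 * Real.pi) = kap * (P 3).im + kap * (2 * Real.pi) := by ring
  rw [this, Real.exp_add, exp_kap]
  ring

theorem x0_gE (P : V4) : x0 (gE P) = x0 P := rfl

theorem re_tE (k : Fin 3 → ℤ) (P : V4) (i : Fin 4) : (tE k P i).re = (P i).re := by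
  fin_cases i <;> simp [tE]

theorem tE_3 (k : Fin 3 → ℤ) (P : V4) : (tE k P) 3 = P 3 := rfl

/-- the four invariants -/
def Inv4 (P : V4) : ℝ × ℝ × ℝ × ℝ :=
  (Real.exp (-(kap * (P 3).im)) * xp P, Real.exp (kap * (P 3).im) * xm P, x0 P, (P 3).re)

theorem Inv4_gE (P : V4) : Inv4 (gE P) = Inv4 P := by
  unfold Inv4
  rw [yp_gE, ym_gE, x0_gE, re3_gE]

theorem Inv4_tE (P : V4) (k : Fin 3 → ℤ) : Inv4 (tE k P) = Inv4 P := by
  unfold Inv4
  have h1 : xp (tE k P) = xp P := by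
    unfold xp; rw [re_tE, re_tE]
  have h2 : xm (tE k P) = xm P := by
    unfold xm; rw [re_tE, re_tE]
  have h3 : x0 (tE k P) = x0 P := by
    unfold x0; rw [re_tE]
  rw [h1, h2, h3, tE_3]

theorem mem_Unb_iff (η : ℝ) (P : V4) : P ∈ Unb η ↔
    (|(Inv4 P).1| < η ∧ |(Inv4 P).2.1| < η ∧ |(Inv4 P).2.2.1| < η ∧ |(Inv4 P).2.2.2| < η) :=
  Iff.rfl

/-- PACKET GRL. -/
theorem grl : S_GRL := by
  refine ⟨fun P => ⟨0, 0, ?_⟩, ?_, ?_, ?_, ?_, fun P => ⟨1, 0, ?_⟩, fun P k => ⟨0, k, ?_⟩⟩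
  · rw [tE_zero]; simp
  · rintro P P' ⟨j, k, rfl⟩
    obtain ⟨k', hk'⟩ := gE_zpow_tE (-j) k
    refine ⟨-j, -k', ?_⟩
    rw [hk', tE_add, neg_add_cancel, tE_zero, ← Equiv.Perm.mul_apply, ← zpow_add, neg_add_cancel,
      zpow_zero, Equiv.Perm.one_apply]
  · rintro P P' P'' ⟨j, k, rfl⟩ ⟨j', l, rfl⟩
    obtain ⟨k', hk'⟩ := gE_zpow_tE j' k
    refine ⟨j' + j, l + k', ?_⟩
    rw [hk', tE_add, zpow_add, Equiv.Perm.mul_apply]
  · exact fun P P' h => inv_gam (fun P => (P 3).re) re3_gE (fun P k => by simp [tE_3]) P P' h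
  · intro η P P' h hP
    have := inv_gam Inv4 Inv4_gE Inv4_tE P P' h
    rw [mem_Unb_iff] at hP ⊢
    rw [this]; exact hP
  · rw [tE_zero, zpow_one]
  · rw [zpow_zero, Equiv.Perm.one_apply]

end Pool.Agent.Helper57.AB
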