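import Pool.Agent.Helper15.AB.GoalsD

/-! # Packet NSM of project AB (MP_1ef41b_an): `N` is smooth and positive. -/

open MeasureTheory Set Filter Topology
open scoped ContDiff

noncomputable section

namespace Pool.Agent.Helper57.AB

open Pool.Agent.Helper24.AB Pool.Agent.Helper15.AB

theorem strip_open (a : ℝ) : IsOpen (strip a) :=
  isOpen_lt (continuous_abs.comp Complex.continuous_re) continuous_const

/-- smoothness of the parametrisation `zP` -/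
theorem zP_smooth {E : Type} [NormedAddCommGroup E] [NormedSpace ℝ E] {D : Set E}
    {z w : E → ℂ} {x y u : E → ℝ} (hz : ContDiffOn ℝ ∞ z D) (hx : ContDiffOn ℝ ∞ x D)
    (hy : ContDiffOn ℝ ∞ y D) (hu : ContDiffOn ℝ ∞ u D) (hw : ContDiffOn ℝ ∞ w D) :
    ContDiffOn ℝ ∞ (fun v => zP (z v) (x v) (y v) (u v) (w v)) D := by
  have hc : ∀ {f : E → ℝ}, ContDiffOn ℝ ∞ f D → ContDiffOn ℝ ∞ (fun v => (f v : ℂ)) D :=
    fun hf => Complex.ofRealCLM.contDiff.comp_contDiffOn hf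
  rw [contDiffOn_pi]
  intro i
  fin_cases i
  · exact (contDiffOn_const.mul hz).add (contDiffOn_const.mul (hc hx))
  · exact hz.add (contDiffOn_const.mul (hc hy))
  · exact contDiffOn_const.mul (hc hu)
  · exact hw

/-- the integrand of `N` -/
def Hf (ee : ℝ) (q : ℂ → ℝ) (R : V4 → ℝ) (w : ℂ) (x y u : ℝ) : ℝ :=
  (fderiv ℝ R (zP (q w) x y u w) eP) ^ ee

theorem Hf_smooth {ee a : ℝ} {q m : ℂ → ℝ} {W U : Set V4} {R : V4 → ℝ}
    (h : IsDat ee a q m W U R) :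
    ContDiffOn ℝ ∞ (fun v : ℂ × ℝ × ℝ × ℝ => Hf ee q R v.1 v.2.1 v.2.2.1 v.2.2.2)
      (strip (a / 2) ×ˢ univ) := by
  have h1 : ContDiffOn ℝ ∞ (fderiv ℝ R) U := h.smooth.fderiv_of_isOpen h.openU (by simp)
  have hq : ContDiffOn ℝ ∞ (fun v : ℂ × ℝ × ℝ × ℝ => (q v.1 : ℂ)) (strip (a / 2) ×ˢ univ) :=
    Complex.ofRealCLM.contDiff.comp_contDiffOn
      (h.q_smooth.comp contDiff_fst.contDiffOn fun v hv => hv.1)
  have h2 : ContDiffOn ℝ ∞ (fun v : ℂ × ℝ × ℝ × ℝ => zP (q v.1) v.2.1 v.2.2.1 v.2.2.2 v.1)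
      (strip (a / 2) ×ˢ univ) := by
    apply zP_smooth hq
    · exact (contDiff_fst.comp contDiff_snd).contDiffOn
    · exact (contDiff_fst.comp (contDiff_snd.comp contDiff_snd)).contDiffOn
    · exact (contDiff_snd.comp (contDiff_snd.comp contDiff_snd)).contDiffOn
    · exact contDiff_fst.contDiffOn
  have h3 : MapsTo (fun v : ℂ × ℝ × ℝ × ℝ => zP (q v.1) v.2.1 v.2.2.1 v.2.2.2 v.1)
      (strip (a / 2) ×ˢ univ) U := by
    rintro v ⟨hv, _⟩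
    exact h.topU _ hv _ _ _ _ (Complex.ofReal_re _)
  have h4 := h1.comp h2 h3
  have h5 : ContDiffOn ℝ ∞ (fun v : ℂ × ℝ × ℝ × ℝ =>
      fderiv ℝ R (zP (q v.1) v.2.1 v.2.2.1 v.2.2.2 v.1) eP) (strip (a / 2) ×ˢ univ) :=
    h4.clm_apply contDiffOn_const
  refine h5.rpow_const_of_ne fun v hv => ?_
  exact (h.top1 _ hv.1 _ _ _ _ (Complex.ofReal_re _)).ne'

/-- PACKET NSM. -/
theorem nsm (hPARI : S_PARI) (hAVB : S_AVB) : S_NSM := by
  intro ee a q m W U R h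
  have hH := Hf_smooth h
  have hso := strip_open (a / 2)
  constructor
  · have h1 : ContDiffOn ℝ ∞ (fun v : ℂ × ℝ × ℝ => ∫ u in (0 : ℝ)..(2 * Real.pi),
        Hf ee q R v.1 v.2.1 v.2.2 u) (strip (a / 2) ×ˢ univ) := by
      refine hPARI (strip (a / 2) ×ˢ univ)
        (fun s : (ℂ × ℝ × ℝ) × ℝ => Hf ee q R s.1.1 s.1.2.1 s.1.2.2 s.2) 0 (2 * Real.pi)
        (hso.prod isOpen_univ) ?_
      refine hH.comp (g := fun v : ℂ × ℝ × ℝ × ℝ => Hf ee q R v.1 v.2.1 v.2.2.1 v.2.2.2)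
        (f := fun s : (ℂ × ℝ × ℝ) × ℝ => (s.1.1, s.1.2.1, s.1.2.2, s.2)) ?_ ?_
      · apply ContDiff.contDiffOn
        fun_prop
      · rintro s ⟨⟨hs, _⟩, _⟩
        exact ⟨hs, trivial⟩
    have h2 : ContDiffOn ℝ ∞ (fun v : ℂ × ℝ => ∫ y in (0 : ℝ)..(2 * Real.pi),
        ∫ u in (0 : ℝ)..(2 * Real.pi), Hf ee q R v.1 v.2 y u) (strip (a / 2) ×ˢ univ) := by
      refine hPARI (strip (a / 2) ×ˢ univ)
        (fun s : (ℂ × ℝ) × ℝ => ∫ u in (0 : ℝ)..(2 * Real.pi), Hf ee q R s.1.1 s.1.2 s.2 u)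
        0 (2 * Real.pi) (hso.prod isOpen_univ) ?_
      refine h1.comp (g := fun v : ℂ × ℝ × ℝ => ∫ u in (0 : ℝ)..(2 * Real.pi),
        Hf ee q R v.1 v.2.1 v.2.2 u) (f := fun s : (ℂ × ℝ) × ℝ => (s.1.1, s.1.2, s.2)) ?_ ?_
      · apply ContDiff.contDiffOn
        fun_prop
      · rintro s ⟨⟨hs, _⟩, _⟩
        exact ⟨hs, trivial⟩
    have h3 : ContDiffOn ℝ ∞ (fun v : ℂ => ∫ x in (0 : ℝ)..(2 * Real.pi),
        ∫ y in (0 : ℝ)..(2 * Real.pi), ∫ u in (0 : ℝ)..(2 * Real.pi), Hf ee q R v x y u)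
        (strip (a / 2)) :=
      hPARI (strip (a / 2)) (fun s : ℂ × ℝ => ∫ y in (0 : ℝ)..(2 * Real.pi),
        ∫ u in (0 : ℝ)..(2 * Real.pi), Hf ee q R s.1 s.2 y u) 0 (2 * Real.pi) hso h2
    exact contDiffOn_const.mul h3
  · intro w hw
    refine hAVB.2.2.2.1 (Hf ee q R w) ?_ ?_
    · have h1 : Continuous ((fun v : ℂ × ℝ × ℝ × ℝ => Hf ee q R v.1 v.2.1 v.2.2.1 v.2.2.2) ∘
          (fun v : ℝ × ℝ × ℝ => (w, v.1, v.2.1, v.2.2))) := by
        refine hH.continuousOn.comp_continuous (by fun_prop) fun v => ⟨hw, trivial⟩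
      exact h1
    · intro x y u
      exact Real.rpow_pos_of_pos (h.top1 w hw _ _ _ _ (Complex.ofReal_re _)) _

end Pool.Agent.Helper57.AB
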