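import Pool.Agent.Helper15.AB.GoalsD

/-! # Packet PER of project AB (MP_1ef41b_an). -/

open MeasureTheory Set Filter Topology
open scoped ContDiff

noncomputable section

namespace Pool.Agent.Helper57.AB

open Pool.Agent.Helper24.AB Pool.Agent.Helper15.AB

theorem sqrt5_sq : ((Real.sqrt 5 : ℝ) : ℂ) ^ 2 = 5 := by
  rw [← Complex.ofReal_pow, Real.sq_sqrt (by norm_num)]
  norm_num

/-- PACKET PER. -/
theorem per : S_PER := by
  refine ⟨?_, ?_, ?_, ?_⟩
  · intro z x y u w
    have h5 := sqrt5_sq
    funext i
    fin_cases i
    · simp [gE, zP, ph, lam]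
      linear_combination (-z / 4) * h5
    · simp [gE, zP, ph, lam]
      ring
    · simp [gE, zP]
    · simp [gE, zP]
  · intro z x y u w k
    funext i
    fin_cases i
    · simp [tE, zP]
      ring
    · simp [tE, zP]
      ring
    · simp [tE, zP]
      ring
    · simp [tE, zP]
  · intro z x y u w
    have hz : z = (z.re : ℂ) + z.im * Complex.I := (Complex.re_add_im z).symm
    funext i
    fin_cases i
    · simp [zP]
      linear_combination (ph : ℂ) * hz
    · simp [zP]
      linear_combination hz
    · simp [zP]
    · simp [zP]
  · intro z x y u w τ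
    funext i
    fin_cases i
    · simp [zP, eP]
      ring
    · simp [zP, eP]
      ring
    · simp [zP, eP]
    · simp [zP, eP]

end Pool.Agent.Helper57.AB
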