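import Pool.Agent.Helper24.AB.PHI.Goals

/-! # Packet FB of project AB (MP_1ef41b_an): bounds for `F` and its gradient. -/

open MeasureTheory Set Filter Topology
open scoped ContDiff

noncomputable section

namespace Pool.Agent.Helper57.AB

open Pool.Agent.Helper24.AB

/-- derivatives of a product `P(Re w) Q(Im w)` -/
theorem prod_fderiv {P Q : ℝ → ℝ} {P' Q' : ℝ} {w : ℂ} (hP : HasDerivAt P P' w.re)
    (hQ : HasDerivAt Q Q' w.im) :
    HasFDerivAt (fun w : ℂ => P w.re * Q w.im)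
      (P w.re • (Q' • Complex.imCLM) + Q w.im • (P' • Complex.reCLM)) w := by
  have h2 : HasFDerivAt (fun w : ℂ => w.re) Complex.reCLM w := Complex.reCLM.hasFDerivAt
  have h3 : HasFDerivAt (fun w : ℂ => w.im) Complex.imCLM w := Complex.imCLM.hasFDerivAt
  have h4 : HasFDerivAt (fun w : ℂ => P w.re) (P' • Complex.reCLM) w := by
    have := HasDerivAt.comp_hasFDerivAt (h₂ := P) w hP h2
    exact this
  have h5 : HasFDerivAt (fun w : ℂ => Q w.im) (Q' • Complex.imCLM) w := by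
    have := HasDerivAt.comp_hasFDerivAt (h₂ := Q) w hQ h3
    exact this
  exact h4.mul h5

theorem uf_deriv (α t : ℝ) : HasDerivAt (uf α) (kap * uf α t) t := by
  have h1 : HasDerivAt (fun t : ℝ => kap * t) kap t := by
    simpa using (hasDerivAt_id t).const_mul kap
  have h2 := (h1.exp).const_mul α
  refine h2.congr_deriv ?_
  unfold uf
  ring

theorem vf_deriv (α' t : ℝ) : HasDerivAt (vf α') (-(kap * vf α' t)) t := by
  have h1 : HasDerivAt (fun t : ℝ => -(kap * t)) (-kap) t := by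
    have h0 : HasDerivAt (fun t : ℝ => kap * t) kap t := by
      simpa using (hasDerivAt_id t).const_mul kap
    exact h0.neg
  have h2 := (h1.exp).const_mul α'
  refine h2.congr_deriv ?_
  unfold vf
  ring

theorem gf_deriv (α' l t : ℝ) : HasDerivAt (gf α' l) (-(2 * kap * vf α' t ^ 2)) t := by
  have h1 := ((vf_deriv α' t).pow 2).add_const (l ^ 2)
  refine h1.congr_deriv ?_
  simp
  ring

theorem gf_nonneg (α' l t : ℝ) : 0 ≤ gf α' l t := by
  unfold gf; positivity

theorem kap_pos : 0 < kap := by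
  unfold kap lam
  apply div_pos _ (by positivity)
  apply Real.log_pos
  have : (0:ℝ) ≤ Real.sqrt 5 := Real.sqrt_nonneg 5
  linarith

/-- the gradient of `F` -/
theorem Ff_fderiv {a A : ℝ} {s : ℝ → ℝ} (hs : IsProfile a A s) (α α' l : ℝ) {w : ℂ}
    (hw : w ∈ strip a) :
    dS (Ff a A s α α' l) w = 2 * s w.re * deriv s w.re * uf α w.im ^ 2 -
      8 * A ^ 2 * w.re * gf α' l w.im ∧
    dT (Ff a A s α α' l) w = 2 * kap * (s w.re ^ 2 * uf α w.im ^ 2 -
      4 * A ^ 2 * (a ^ 2 - w.re ^ 2) * vf α' w.im ^ 2) := by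
  have hre : w.re ∈ Ioo (-a) a := abs_lt.1 hw
  have hsd : HasDerivAt s (deriv s w.re) w.re :=
    ((hs.smooth.contDiffAt (Ioo_mem_nhds hre.1 hre.2)).differentiableAt (by simp)).hasDerivAt
  have h1 : HasDerivAt (fun x => s x ^ 2) (2 * s w.re * deriv s w.re) w.re := by
    have := hsd.pow 2
    refine this.congr_deriv ?_
    simp
  have h2 : HasDerivAt (fun t => uf α t ^ 2) (2 * uf α w.im * (kap * uf α w.im)) w.im := by
    have := (uf_deriv α w.im).pow 2
    refine this.congr_deriv ?_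
    simp
  have h3 : HasDerivAt (fun x : ℝ => 4 * A ^ 2 * (a ^ 2 - x ^ 2)) (-(8 * A ^ 2 * w.re)) w.re := by
    have := ((hasDerivAt_pow 2 w.re).const_sub (a ^ 2)).const_mul (4 * A ^ 2)
    refine this.congr_deriv ?_
    simp
    ring
  have h4 := (prod_fderiv h1 h2).add (prod_fderiv h3 (gf_deriv α' l w.im))
  have h5 : HasFDerivAt (Ff a A s α α' l) _ w := h4
  unfold dS dT
  rw [h5.fderiv]
  constructor
  · simp
    ring
  · simp
    ring

/-- PACKET FB. -/
theorem fb : S_FB := by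
  intro a A s hs α α' l w hw
  have ha := hs.a_pos
  have ha2 := hs.a_le
  have hA := hs.A_pos
  have hre : w.re ∈ Ioo (-a) a := abs_lt.1 hw
  have hs0 : 0 < s w.re := hs.pos _ hre
  have hw' : |w.re| < a := hw
  have hsq : w.re ^ 2 < a ^ 2 := by
    rw [← sq_abs w.re]
    exact pow_lt_pow_left₀ hw' (abs_nonneg _) (by norm_num)
  have he : 0 < a ^ 2 - w.re ^ 2 := by linarith
  have ha4 : a ^ 2 ≤ 1 / 4 := by nlinarith
  have hg := gf_nonneg α' l w.im
  have hk := kap_pos
  have hsqe : Real.sqrt (a ^ 2 - w.re ^ 2) ^ 2 = a ^ 2 - w.re ^ 2 := Real.sq_sqrt he.le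
  set e : ℝ := a ^ 2 - w.re ^ 2 with hedef
  have hea : e ≤ a ^ 2 := by rw [hedef]; nlinarith [sq_nonneg w.re]
  have c1 : A ^ 2 * e ≤ s w.re ^ 2 := by
    by_cases h : |w.re| ≤ 19 / 20 * a
    · have h1 := hs.ge_mid _ h
      have h2 : (A / 2) ^ 2 ≤ s w.re ^ 2 := by gcongr
      nlinarith [sq_nonneg A]
    · push Not at h
      rw [hs.edge _ h.le hw', div_pow, mul_pow, mul_pow, hsqe, le_div_iff₀ (by positivity)]
      have h3 : a ^ 2 ≤ 4 := by linarith
      have h4 : 0 ≤ A ^ 2 * e := by positivity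
      nlinarith
  have c3' : s w.re ^ 2 ≤ 4 * A ^ 2 * (e / a ^ 2) := by
    have h1 := hs.le_edge _ hre
    have h2 : s w.re ^ 2 ≤ (2 * A * Real.sqrt e / a) ^ 2 := by gcongr
    rw [div_pow, mul_pow, mul_pow, hsqe] at h2
    calc _ ≤ _ := h2
      _ = _ := by ring
  have hu : 0 ≤ uf α w.im ^ 2 := sq_nonneg _
  refine ⟨c1, ?_, ?_, ?_, ?_, ?_⟩
  · unfold Ff
    have h1 : 0 ≤ A ^ 2 * e * gf α' l w.im := by positivity
    have h2 := mul_le_mul_of_nonneg_right c1 hu
    nlinarith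
  · unfold Ff
    have h1 := mul_le_mul_of_nonneg_right c3' hu
    have h2 : e ≤ e / a ^ 2 := by
      rw [le_div_iff₀ (by positivity)]
      nlinarith
    have h3 : 4 * A ^ 2 * e * gf α' l w.im ≤ 4 * A ^ 2 * (e / a ^ 2) * gf α' l w.im := by gcongr
    linarith
  · unfold Ff
    have : 0 ≤ 4 * A ^ 2 * e * gf α' l w.im := by positivity
    linarith
  · rw [(Ff_fderiv hs α α' l hw).1]
    have h1 := hs.s' _ hre
    have h2 : |2 * s w.re * deriv s w.re * uf α w.im ^ 2 - 8 * A ^ 2 * w.re * gf α' l w.im| ≤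
        2 * s w.re * |deriv s w.re| * uf α w.im ^ 2 + 8 * A ^ 2 * |w.re| * gf α' l w.im := by
      refine (abs_sub _ _).trans ?_
      rw [abs_mul, abs_mul, abs_mul, abs_mul, abs_mul, abs_mul, abs_of_pos (show (0:ℝ) < 2 by norm_num),
        abs_of_pos hs0, abs_of_nonneg hu, abs_of_nonneg hg,
        abs_of_pos (show (0:ℝ) < 8 by norm_num), abs_of_nonneg (sq_nonneg A)]
    refine h2.trans ?_
    have h3 : 2 * s w.re * |deriv s w.re| * uf α w.im ^ 2 ≤
        2 * s w.re * (21 / 20 * s w.re * |w.re| / e) * uf α w.im ^ 2 := by gcongr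
    have h4 : 8 * A ^ 2 * |w.re| * gf α' l w.im ≤
        21 / 10 * |w.re| / e * (4 * A ^ 2 * e * gf α' l w.im) := by
      have : 21 / 10 * |w.re| / e * (4 * A ^ 2 * e * gf α' l w.im) =
          21 / 10 * 4 * (A ^ 2 * |w.re| * gf α' l w.im) := by
        field_simp
      rw [this]
      have : 0 ≤ A ^ 2 * |w.re| * gf α' l w.im := by positivity
      nlinarith
    have h5 : 2 * s w.re * (21 / 20 * s w.re * |w.re| / e) * uf α w.im ^ 2 =
        21 / 10 * |w.re| / e * (s w.re ^ 2 * uf α w.im ^ 2) := by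
      ring
    unfold Ff
    rw [mul_add, ← hedef]
    linarith
  · rw [(Ff_fderiv hs α α' l hw).2]
    have hv : vf α' w.im ^ 2 ≤ gf α' l w.im := by
      unfold gf; nlinarith [sq_nonneg l]
    have hv0 : 0 ≤ vf α' w.im ^ 2 := sq_nonneg _
    rw [abs_mul, abs_of_pos (by positivity : (0:ℝ) < 2 * kap)]
    gcongr
    unfold Ff
    rw [← hedef]
    have h1 : 0 ≤ s w.re ^ 2 * uf α w.im ^ 2 := by positivity
    have h2 : 0 ≤ 4 * A ^ 2 * e * vf α' w.im ^ 2 := by positivity
    have h3 : 4 * A ^ 2 * e * vf α' w.im ^ 2 ≤ 4 * A ^ 2 * e * gf α' l w.im := by gcongr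
    rw [abs_le]
    constructor <;> linarith

end Pool.Agent.Helper57.AB
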