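import Pool.Agent.Helper24.AB.PP.Goals

/-! # Packet LOGC of project AB (MP_1ef41b_an): logarithmic cut-off functions. -/

open MeasureTheory Set Filter Topology
open scoped ContDiff

noncomputable section

namespace Pool.Agent.Helper57.AB

open Pool.Agent.Helper24.AB

theorem st_deriv_bound : ∃ C : ℝ, 0 < C ∧ ∀ x, |deriv Real.smoothTransition x| ≤ C := by
  have hc : Continuous (deriv Real.smoothTransition) :=
    (Real.smoothTransition.contDiff (n := 1)).continuous_deriv (by norm_num)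
  obtain ⟨C, hC⟩ := isCompact_Icc.exists_bound_of_continuousOn (s := Icc (0 : ℝ) 1)
    hc.continuousOn
  refine ⟨max C 1, by positivity, fun x => ?_⟩
  by_cases h0 : x < 0
  · have : Real.smoothTransition =ᶠ[𝓝 x] fun _ => (0 : ℝ) := by
      filter_upwards [gt_mem_nhds h0] with y hy using Real.smoothTransition.zero_of_nonpos hy.le
    rw [this.deriv_eq]
    simp
  by_cases h1 : 1 < x
  · have : Real.smoothTransition =ᶠ[𝓝 x] fun _ => (1 : ℝ) := by
      filter_upwards [lt_mem_nhds h1] with y hy using Real.smoothTransition.one_of_one_le hy.le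
    rw [this.deriv_eq]
    simp
  · push Not at h0 h1
    exact (hC x ⟨h0, h1⟩).trans (le_max_left _ _)

theorem volR_ball : (volume : Measure ℂ).real (Metric.ball 0 1) = Real.pi := by
  rw [Measure.real, Complex.volume_ball]
  simp

/-- integrals of radial functions -/
theorem integral_radial (f : ℝ → ℝ) :
    ∫ ζ : ℂ, f ‖ζ‖ = 2 * Real.pi * ∫ y in Ioi (0 : ℝ), y * f y := by
  have h := integral_fun_norm_addHaar (E := ℂ) volume f
  rw [h, volR_ball, Complex.finrank_real_complex]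
  simp only [smul_eq_mul, nsmul_eq_mul]
  norm_num
  ring

theorem integrable_radial (f : ℝ → ℝ) :
    Integrable (fun ζ : ℂ => f ‖ζ‖) ↔ IntegrableOn (fun y => y * f y) (Ioi (0 : ℝ)) := by
  have h := integrable_fun_norm_addHaar (E := ℂ) volume (f := f)
  rw [h, Complex.finrank_real_complex]
  simp only [smul_eq_mul]
  norm_num

/-- PACKET LOGC. -/
theorem logc : S_LOGC := by
  intro R e hR he
  obtain ⟨C, hC, hCb⟩ := st_deriv_bound
  have hpi := Real.pi_pos
  set L : ℝ := 2 * Real.pi * C ^ 2 / e + 1 with hL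
  have hL0 : 0 < L := by positivity
  set r : ℝ := R * Real.exp (-L) with hr
  have hr0 : 0 < r := by positivity
  have hrR : r < R := by
    have : Real.exp (-L) < 1 := by rw [Real.exp_lt_one_iff]; linarith
    nlinarith
  have hlogr : Real.log r = Real.log R - L := by
    rw [hr, Real.log_mul hR.ne' (Real.exp_ne_zero _), Real.log_exp]; ring
  set ψ : ℂ → ℝ := fun ζ => if ζ = 0 then 1 else
    Real.smoothTransition ((Real.log R - Real.log ‖ζ‖) / L) with hψ
  have hψ1 : ∀ ζ, ‖ζ‖ ≤ r → ψ ζ = 1 := by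
    intro ζ hζ
    by_cases h : ζ = 0
    · simp [hψ, h]
    · simp only [hψ, if_neg h]
      apply Real.smoothTransition.one_of_one_le
      rw [le_div_iff₀ hL0]
      have := Real.log_le_log (norm_pos_iff.2 h) hζ
      linarith
  have hψ0 : ∀ ζ, R ≤ ‖ζ‖ → ψ ζ = 0 := by
    intro ζ hζ
    have h : ζ ≠ 0 := by
      rintro rfl
      simp at hζ
      linarith
    simp only [hψ, if_neg h]
    apply Real.smoothTransition.zero_of_nonpos
    apply div_nonpos_of_nonpos_of_nonneg _ hL0.le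
    have := Real.log_le_log hR hζ
    linarith
  have hloc : ∀ ζ : ℂ, ζ ≠ 0 → ψ =ᶠ[𝓝 ζ]
      fun ζ => Real.smoothTransition ((Real.log R - Real.log ‖ζ‖) / L) := by
    intro ζ hζ
    filter_upwards [isOpen_ne.mem_nhds hζ] with w hw
    simp only [hψ]
    rw [if_neg hw]
  have hloc1 : ∀ ζ : ℂ, ‖ζ‖ < r → ψ =ᶠ[𝓝 ζ] fun _ => (1 : ℝ) := by
    intro ζ hζ
    filter_upwards [(isOpen_lt continuous_norm continuous_const).mem_nhds hζ] with w hw
    exact hψ1 w (le_of_lt hw)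
  have hloc0 : ∀ ζ : ℂ, R < ‖ζ‖ → ψ =ᶠ[𝓝 ζ] fun _ => (0 : ℝ) := by
    intro ζ hζ
    filter_upwards [(isOpen_lt continuous_const continuous_norm).mem_nhds hζ] with w hw
    exact hψ0 w (le_of_lt hw)
  have hsm : ContDiff ℝ ∞ ψ := by
    rw [contDiff_iff_contDiffAt]
    intro ζ
    by_cases h : ζ = 0
    · exact contDiffAt_const.congr_of_eventuallyEq (hloc1 ζ (by rw [h, norm_zero]; exact hr0))
    · refine ContDiffAt.congr_of_eventuallyEq ?_ (hloc ζ h)
      refine Real.smoothTransition.contDiffAt.comp ζ ?_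
      refine ContDiffAt.div_const (contDiffAt_const.sub ?_) _
      exact (contDiffAt_norm ℝ h).log (norm_ne_zero_iff.2 h)
  have hbd : ∀ ζ : ℂ, ‖fderiv ℝ ψ ζ‖ ^ 2 ≤
      indicator (Icc r R) (fun y => C ^ 2 / L ^ 2 * (y ^ 2)⁻¹) ‖ζ‖ := by
    intro ζ
    by_cases h1 : ‖ζ‖ < r
    · rw [(hloc1 ζ h1).fderiv_eq, indicator_of_notMem (fun h => absurd h.1 (not_le.2 h1))]
      simp
    by_cases h2 : R < ‖ζ‖
    · rw [(hloc0 ζ h2).fderiv_eq, indicator_of_notMem (fun h => absurd h.2 (not_le.2 h2))]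
      simp
    push Not at h1 h2
    rw [indicator_of_mem (mem_Icc.2 ⟨h1, h2⟩)]
    have hζ : ζ ≠ 0 := by
      rintro rfl
      simp at h1
      linarith
    have hζn : 0 < ‖ζ‖ := norm_pos_iff.2 hζ
    have hn : HasFDerivAt (fun ζ : ℂ => ‖ζ‖) (fderiv ℝ (fun ζ : ℂ => ‖ζ‖) ζ) ζ :=
      ((contDiffAt_norm ℝ hζ (n := 1)).differentiableAt (by simp)).hasFDerivAt
    have hnn : ‖fderiv ℝ (fun ζ : ℂ => ‖ζ‖) ζ‖ ≤ 1 :=
      norm_fderiv_le_of_lipschitz ℝ (C := 1) lipschitzWith_one_norm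
    have hlog : HasFDerivAt (fun ζ : ℂ => Real.log ‖ζ‖)
        (‖ζ‖⁻¹ • fderiv ℝ (fun ζ : ℂ => ‖ζ‖) ζ) ζ := hn.log hζn.ne'
    have hin : HasFDerivAt (fun ζ : ℂ => (Real.log R - Real.log ‖ζ‖) / L)
        (L⁻¹ • (-(‖ζ‖⁻¹ • fderiv ℝ (fun ζ : ℂ => ‖ζ‖) ζ))) ζ := by
      have := (hlog.const_sub (Real.log R)).const_mul L⁻¹
      refine this.congr_of_eventuallyEq (Eventually.of_forall fun w => ?_)
      simp only
      rw [div_eq_inv_mul]
    set s : ℝ := (Real.log R - Real.log ‖ζ‖) / L with hs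
    have hT : HasDerivAt Real.smoothTransition (deriv Real.smoothTransition s) s :=
      ((Real.smoothTransition.contDiff (n := 1)).differentiable (by norm_num) s).hasDerivAt
    have hcomp : HasFDerivAt (fun ζ : ℂ => Real.smoothTransition
        ((Real.log R - Real.log ‖ζ‖) / L))
        (deriv Real.smoothTransition s • (L⁻¹ • (-(‖ζ‖⁻¹ • fderiv ℝ (fun ζ : ℂ => ‖ζ‖) ζ)))) ζ := by
      have := HasDerivAt.comp_hasFDerivAt (h₂ := Real.smoothTransition) ζ hT hin
      exact this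
    rw [(hloc ζ hζ).fderiv_eq, hcomp.fderiv]
    have h3 : ‖deriv Real.smoothTransition s •
        (L⁻¹ • (-(‖ζ‖⁻¹ • fderiv ℝ (fun ζ : ℂ => ‖ζ‖) ζ)))‖ ≤ C * (L⁻¹ * ‖ζ‖⁻¹) := by
      rw [norm_smul, norm_smul, norm_neg, norm_smul, Real.norm_eq_abs, Real.norm_eq_abs,
        Real.norm_eq_abs, abs_of_pos (inv_pos.2 hL0), abs_of_pos (inv_pos.2 hζn)]
      have h4 := hCb s
      have h5 : 0 ≤ L⁻¹ * ‖ζ‖⁻¹ := by positivity
      calc |deriv Real.smoothTransition s| * (L⁻¹ * (‖ζ‖⁻¹ * ‖fderiv ℝ (fun ζ : ℂ => ‖ζ‖) ζ‖))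
          ≤ C * (L⁻¹ * (‖ζ‖⁻¹ * 1)) := by gcongr
        _ = _ := by ring
    calc _ ≤ (C * (L⁻¹ * ‖ζ‖⁻¹)) ^ 2 := by gcongr
      _ = _ := by
        field_simp
  have heq : ∀ y : ℝ, y * indicator (Icc r R) (fun y => C ^ 2 / L ^ 2 * (y ^ 2)⁻¹) y =
      indicator (Icc r R) (fun y => C ^ 2 / L ^ 2 * y⁻¹) y := by
    intro y
    by_cases hy : y ∈ Icc r R
    · rw [indicator_of_mem hy, indicator_of_mem hy]
      have : y ≠ 0 := (hr0.trans_le hy.1).ne'
      field_simp
    · rw [indicator_of_notMem hy, indicator_of_notMem hy, mul_zero]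
  have hcont : ContinuousOn (fun y : ℝ => C ^ 2 / L ^ 2 * y⁻¹) (Icc r R) := by
    refine continuousOn_const.mul (continuousOn_id.inv₀ fun y hy => ?_)
    exact (hr0.trans_le hy.1).ne'
  have hgi : Integrable (fun ζ : ℂ =>
      indicator (Icc r R) (fun y => C ^ 2 / L ^ 2 * (y ^ 2)⁻¹) ‖ζ‖) := by
    rw [integrable_radial]
    simp only [heq]
    have h1 : IntegrableOn (fun y : ℝ => C ^ 2 / L ^ 2 * y⁻¹) (Icc r R) :=
      hcont.integrableOn_compact isCompact_Icc
    exact (h1.integrable_indicator measurableSet_Icc).integrableOn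
  have hgv : ∫ ζ : ℂ, indicator (Icc r R) (fun y => C ^ 2 / L ^ 2 * (y ^ 2)⁻¹) ‖ζ‖ =
      2 * Real.pi * C ^ 2 / L := by
    rw [integral_radial]
    simp only [heq]
    have hsub : Icc r R ⊆ Ioi 0 := fun y hy => hr0.trans_le hy.1
    rw [setIntegral_indicator measurableSet_Icc, inter_eq_self_of_subset_right hsub,
      integral_Icc_eq_integral_Ioc, ← intervalIntegral.integral_of_le hrR.le,
      intervalIntegral.integral_const_mul, integral_inv_of_pos hr0 hR, Real.log_div hR.ne' hr0.ne',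
      hlogr]
    field_simp
    ring
  have hfi : Integrable (fun ζ => ‖fderiv ℝ ψ ζ‖ ^ 2) := by
    refine hgi.mono' ?_ (Eventually.of_forall fun ζ => ?_)
    · exact (((hsm.continuous_fderiv (by simp)).norm).pow 2).aestronglyMeasurable
    · rw [Real.norm_eq_abs, abs_of_nonneg (by positivity)]
      exact hbd ζ
  refine ⟨r, ψ, hr0, hrR, hsm, ?_, hψ1, hψ0, hfi, ?_⟩
  · intro ζ
    by_cases h : ζ = 0
    · simp [hψ, h]
    · simp only [hψ, if_neg h]
      exact ⟨Real.smoothTransition.nonneg _, Real.smoothTransition.le_one _⟩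
  · calc ∫ ζ, ‖fderiv ℝ ψ ζ‖ ^ 2 ≤
        ∫ ζ : ℂ, indicator (Icc r R) (fun y => C ^ 2 / L ^ 2 * (y ^ 2)⁻¹) ‖ζ‖ :=
          integral_mono hfi hgi hbd
      _ = 2 * Real.pi * C ^ 2 / L := hgv
      _ ≤ e := by
        rw [div_le_iff₀ hL0, hL, mul_add, mul_one]
        have : e * (2 * Real.pi * C ^ 2 / e) = 2 * Real.pi * C ^ 2 := by field_simp
        linarith

end Pool.Agent.Helper57.AB
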