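import Pool.Agent.Helper24.AB.PP.Goals

/-! # Packet LOGP of project AB (MP_1ef41b_an): periodized logarithmic cut-off functions. -/

open MeasureTheory Set Filter Topology
open scoped ContDiff ENNReal

noncomputable section

namespace Pool.Agent.Helper57.AB

open Pool.Agent.Helper24.AB

/-- the translation by `2πik` -/
def tk (k : ℤ) : ℂ := 2 * Real.pi * Complex.I * k

theorem tk_im (k : ℤ) : (tk k).im = 2 * Real.pi * k := by
  simp [tk]

theorem tk_re (k : ℤ) : (tk k).re = 0 := by
  simp [tk]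

/-- the index of the nearest translate -/
def nk (x w : ℂ) : ℤ := round ((w - x).im / (2 * Real.pi))

/-- the periodization of a function supported in the unit ball -/
def perz (ψ : ℂ → ℝ) (x w : ℂ) : ℝ := ψ (w - x - tk (nk x w))

theorem im_sub_tk (x w : ℂ) (k : ℤ) :
    (w - x - tk k).im = 2 * Real.pi * ((w - x).im / (2 * Real.pi) - k) := by
  rw [Complex.sub_im (w - x), tk_im]
  have := Real.pi_pos
  field_simp

theorem norm_ge_of {x w : ℂ} {k : ℤ} (h : 1 / 4 ≤ |(w - x).im / (2 * Real.pi) - k|) :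
    1 ≤ ‖w - x - tk k‖ := by
  have h1 := Complex.abs_im_le_norm (w - x - tk k)
  rw [im_sub_tk, abs_mul, abs_of_pos (by positivity)] at h1
  have h2 := Real.pi_gt_three
  nlinarith

/-- Locally the periodization is one translate. -/
theorem perz_local {ψ : ℂ → ℝ} (h0 : ∀ ζ, 1 ≤ ‖ζ‖ → ψ ζ = 0) (x w : ℂ) :
    perz ψ x =ᶠ[𝓝 w] fun w' => ψ (w' - x - tk (nk x w)) := by
  have hc : Continuous fun w' : ℂ => (w' - x).im / (2 * Real.pi) := by fun_prop
  have hn : ∀ᶠ w' in 𝓝 w, |(w' - x).im / (2 * Real.pi) - (w - x).im / (2 * Real.pi)| < 1 / 4 := by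
    have := (hc.sub (continuous_const (y := (w - x).im / (2 * Real.pi)))).abs
    refine (isOpen_lt this continuous_const).mem_nhds ?_
    simp
  have hle := abs_sub_round ((w - x).im / (2 * Real.pi))
  rcases hle.lt_or_eq with hlt | heq
  · have hn2 : ∀ᶠ w' in 𝓝 w, |(w' - x).im / (2 * Real.pi) - nk x w| < 1 / 2 := by
      have := (hc.sub (continuous_const (y := (nk x w : ℝ)))).abs
      exact (isOpen_lt this continuous_const).mem_nhds hlt
    filter_upwards [hn2] with w' hw'
    have h1 : nk x w' = nk x w := by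
      have h2 := abs_sub_round ((w' - x).im / (2 * Real.pi))
      have h3 : |((nk x w' : ℤ) : ℝ) - nk x w| < 1 := by
        calc |((nk x w' : ℤ) : ℝ) - nk x w| ≤ |((nk x w' : ℤ) : ℝ) - (w' - x).im / (2 * Real.pi)| +
              |(w' - x).im / (2 * Real.pi) - nk x w| := abs_sub_le _ _ _
          _ < 1 / 2 + 1 / 2 := by
            rw [abs_sub_comm ((nk x w' : ℤ) : ℝ)]
            exact add_lt_add_of_le_of_lt h2 hw'
          _ = 1 := by norm_num
      have h4 : |nk x w' - nk x w| < 1 := by exact_mod_cast h3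
      rw [Int.abs_lt_one_iff] at h4
      linarith
    show ψ (w' - x - tk (nk x w')) = _
    rw [h1]
  · filter_upwards [hn] with w' hw'
    have h1 : ψ (w' - x - tk (nk x w)) = 0 := by
      apply h0
      apply norm_ge_of
      have h2 : |(w - x).im / (2 * Real.pi) - nk x w| = 1 / 2 := heq
      have h3 := abs_sub_le ((w - x).im / (2 * Real.pi)) ((w' - x).im / (2 * Real.pi))
        (nk x w : ℝ)
      rw [abs_sub_comm] at hw'
      linarith
    have h2 : ψ (w' - x - tk (nk x w')) = 0 := by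
      apply h0
      apply norm_ge_of
      have h3 : 1 / 2 ≤ |(w - x).im / (2 * Real.pi) - nk x w'| := by
        have := round_le ((w - x).im / (2 * Real.pi)) (nk x w')
        rwa [heq] at this
      have h4 := abs_sub_le ((w - x).im / (2 * Real.pi)) ((w' - x).im / (2 * Real.pi))
        (nk x w' : ℝ)
      rw [abs_sub_comm] at hw'
      linarith
    show ψ (w' - x - tk (nk x w')) = _
    rw [h1, h2]

theorem perz_contDiff {ψ : ℂ → ℝ} (hψ : ContDiff ℝ ∞ ψ) (h0 : ∀ ζ, 1 ≤ ‖ζ‖ → ψ ζ = 0) (x : ℂ) :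
    ContDiff ℝ ∞ (perz ψ x) := by
  rw [contDiff_iff_contDiffAt]
  intro w
  refine ContDiffAt.congr_of_eventuallyEq ?_ (perz_local h0 x w)
  have : ContDiff ℝ ∞ (fun w' => ψ (w' - x - tk (nk x w))) :=
    hψ.comp ((contDiff_id.sub contDiff_const).sub contDiff_const)
  exact this.contDiffAt

theorem perz_fderiv {ψ : ℂ → ℝ} (h0 : ∀ ζ, 1 ≤ ‖ζ‖ → ψ ζ = 0) (x w : ℂ) :
    fderiv ℝ (perz ψ x) w = fderiv ℝ ψ (w - x - tk (nk x w)) := by
  rw [(perz_local h0 x w).fderiv_eq]
  have : (fun w' => ψ (w' - x - tk (nk x w))) = fun w' => ψ (w' - (x + tk (nk x w))) := by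
    funext w'; rw [sub_sub]
  rw [this, fderiv_comp_sub]
  rw [sub_sub]

theorem perz_per (ψ : ℂ → ℝ) (x w : ℂ) : perz ψ x (w + 2 * Real.pi * Complex.I) = perz ψ x w := by
  have h1 : nk x (w + 2 * Real.pi * Complex.I) = nk x w + 1 := by
    unfold nk
    have : (w + 2 * Real.pi * Complex.I - x).im / (2 * Real.pi) =
        (w - x).im / (2 * Real.pi) + 1 := by
      have h2 : (w + 2 * Real.pi * Complex.I - x).im = (w - x).im + 2 * Real.pi := by
        simp
        ring
      rw [h2]
      have := Real.pi_pos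
      field_simp
    rw [this, round_add_one]
  unfold perz
  rw [h1]
  congr 1
  unfold tk
  push_cast
  ring

/-- the energy -/
theorem perz_energy {ψ : ℂ → ℝ} (hψ : ContDiff ℝ ∞ ψ) (h0 : ∀ ζ, 1 ≤ ‖ζ‖ → ψ ζ = 0) (x : ℂ)
    (a : ℝ) : ∫⁻ w in cell a, ENNReal.ofReal (‖fderiv ℝ (perz ψ x) w‖ ^ 2) ≤
      ∫⁻ ζ, ENNReal.ofReal (‖fderiv ℝ ψ ζ‖ ^ 2) := by
  set f : ℂ → ℝ≥0∞ := fun ζ => ENNReal.ofReal (‖fderiv ℝ ψ ζ‖ ^ 2) with hf
  have hfm : Measurable f :=
    (((hψ.continuous_fderiv (by simp)).norm).pow 2).measurable.ennreal_ofReal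
  have hcm : MeasurableSet (cell a) := by
    have h1 : MeasurableSet {w : ℂ | |w.re| < a} :=
      measurableSet_lt (by fun_prop) measurable_const
    have h2 : MeasurableSet {w : ℂ | 0 ≤ w.im} :=
      measurableSet_le measurable_const (by fun_prop)
    have h3 : MeasurableSet {w : ℂ | w.im < 2 * Real.pi} :=
      measurableSet_lt (by fun_prop) measurable_const
    exact h1.inter (h2.inter h3)
  have h1 : ∀ w, ENNReal.ofReal (‖fderiv ℝ (perz ψ x) w‖ ^ 2) ≤ ∑' k : ℤ, f (w - (x + tk k)) := by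
    intro w
    rw [perz_fderiv h0]
    have := ENNReal.le_tsum (f := fun k : ℤ => f (w - (x + tk k))) (nk x w)
    simp only [← sub_sub] at this ⊢
    exact this
  calc ∫⁻ w in cell a, ENNReal.ofReal (‖fderiv ℝ (perz ψ x) w‖ ^ 2)
      ≤ ∫⁻ w in cell a, ∑' k : ℤ, f (w - (x + tk k)) := lintegral_mono h1
    _ = ∑' k : ℤ, ∫⁻ w in cell a, f (w - (x + tk k)) :=
        lintegral_tsum fun k => (hfm.comp (measurable_id.sub_const _)).aemeasurable
    _ = ∑' k : ℤ, ∫⁻ ζ in (fun ζ => ζ + (x + tk k)) ⁻¹' cell a, f ζ := by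
        congr 1
        funext k
        have h2 := (measurePreserving_add_right (volume : Measure ℂ)
          (x + tk k)).setLIntegral_comp_preimage (s := cell a)
          (f := fun w => f (w - (x + tk k))) hcm (hfm.comp (measurable_id.sub_const _))
        rw [← h2]
        simp only [add_sub_cancel_right]
    _ = ∫⁻ ζ in ⋃ k : ℤ, (fun ζ => ζ + (x + tk k)) ⁻¹' cell a, f ζ := by
        rw [lintegral_iUnion]
        · intro k
          exact hcm.preimage (measurable_id.add_const _)
        · intro k l hkl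
          rw [Function.onFun, Set.disjoint_left]
          rintro ζ ⟨_, h3, h4⟩ ⟨_, h5, h6⟩
          simp only [Complex.add_im, tk_im] at h3 h4 h5 h6
          have hpi := Real.pi_pos
          apply hkl
          have h7 : 2 * Real.pi * ((k : ℝ) - l) < 2 * Real.pi * 1 := by linarith
          have h8 : 2 * Real.pi * ((l : ℝ) - k) < 2 * Real.pi * 1 := by linarith
          have h9 : (k : ℝ) - l < 1 := lt_of_mul_lt_mul_left h7 (by positivity)
          have h10 : (l : ℝ) - k < 1 := lt_of_mul_lt_mul_left h8 (by positivity)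
          have h11 : k - l < 1 := by exact_mod_cast h9
          have h12 : l - k < 1 := by exact_mod_cast h10
          omega
    _ ≤ ∫⁻ ζ, f ζ := setLIntegral_le_lintegral _ _

/-- PACKET LOGP. -/
theorem logp (hLOGC : S_LOGC) : S_LOGP := by
  intro R e hR hR1 he
  obtain ⟨r, ψ, hr0, hrR, hsm, h01, h1, h0, hint, hle⟩ := hLOGC R e hR he
  have h0' : ∀ ζ, 1 ≤ ‖ζ‖ → ψ ζ = 0 := fun ζ hζ => h0 ζ (hR1.trans hζ)
  refine ⟨r, hr0, hrR, fun x => ⟨perz ψ x, perz_contDiff hsm h0' x, perz_per ψ x,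
    fun w => h01 _, ?_, ?_, ?_⟩⟩
  · intro w k hk
    have h2 : nk x w = k := by
      have h3 := Complex.abs_im_le_norm (w - x - tk k)
      have h4 : ‖w - x - tk k‖ ≤ r := hk
      rw [im_sub_tk, abs_mul, abs_of_pos (by positivity)] at h3
      have h5 := Real.pi_gt_three
      have h6 : |(w - x).im / (2 * Real.pi) - k| < 1 / 2 := by
        by_contra h7
        push Not at h7
        nlinarith
      have h7 := abs_sub_round ((w - x).im / (2 * Real.pi))
      have h8 : |((nk x w : ℤ) : ℝ) - k| < 1 := by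
        calc |((nk x w : ℤ) : ℝ) - k| ≤ |((nk x w : ℤ) : ℝ) - (w - x).im / (2 * Real.pi)| +
              |(w - x).im / (2 * Real.pi) - k| := abs_sub_le _ _ _
          _ < 1 / 2 + 1 / 2 := by
            rw [abs_sub_comm ((nk x w : ℤ) : ℝ)]
            exact add_lt_add_of_le_of_lt h7 h6
          _ = 1 := by norm_num
      have h9 : |nk x w - k| < 1 := by exact_mod_cast h8
      rw [Int.abs_lt_one_iff] at h9
      linarith
    show ψ (w - x - tk (nk x w)) = 1
    rw [h2]
    exact h1 _ hk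
  · intro w hw
    exact h0 _ (hw _)
  · intro a
    have hb := perz_energy hsm h0' x a
    have hfin : ∫⁻ ζ, ENNReal.ofReal (‖fderiv ℝ ψ ζ‖ ^ 2) = ENNReal.ofReal
        (∫ ζ, ‖fderiv ℝ ψ ζ‖ ^ 2) :=
      (ofReal_integral_eq_lintegral_ofReal hint
        (Eventually.of_forall fun ζ => by positivity)).symm
    have hcf : Continuous fun w => ‖fderiv ℝ (perz ψ x) w‖ ^ 2 :=
      (((perz_contDiff hsm h0' x).continuous_fderiv (by simp)).norm).pow 2
    rw [hfin] at hb
    constructor
    · refine ⟨hcf.aestronglyMeasurable, ?_⟩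
      rw [hasFiniteIntegral_iff_ofReal (Eventually.of_forall fun ζ => by positivity)]
      exact hb.trans_lt ENNReal.ofReal_lt_top
    · rw [integral_eq_lintegral_of_nonneg_ae (Eventually.of_forall fun ζ => by positivity)
        hcf.aestronglyMeasurable]
      refine (ENNReal.toReal_mono ENNReal.ofReal_ne_top hb).trans ?_
      rw [ENNReal.toReal_ofReal (integral_nonneg fun ζ => by positivity)]
      exact hle

end Pool.Agent.Helper57.AB
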