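import Pool.Agent.Helper57.AB.LOGC

/-! # Packet LOGR of project AB (MP_1ef41b_an): smoothing of `log ‖ζ‖`. -/

open MeasureTheory Set Filter Topology
open scoped ContDiff

noncomputable section

namespace Pool.Agent.Helper57.AB

open Pool.Agent.Helper24.AB

/-- smooth step: `0` for `x ≤ 1/4`, `1` for `x ≥ 1` -/
def th (x : ℝ) : ℝ := Real.smoothTransition ((4 * x - 1) / 3)

theorem th_smooth : ContDiff ℝ ∞ th := by
  unfold th
  exact Real.smoothTransition.contDiff.comp (by fun_prop)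

theorem th_zero {x : ℝ} (h : x ≤ 1 / 4) : th x = 0 :=
  Real.smoothTransition.zero_of_nonpos (by linarith)

theorem th_one {x : ℝ} (h : 1 ≤ x) : th x = 1 :=
  Real.smoothTransition.one_of_one_le (by linarith)

theorem th_mono : Monotone th := by
  intro x y h
  exact Real.smoothTransition.monotone (by linarith)

theorem th_deriv_nonneg (x : ℝ) : 0 ≤ deriv th x := th_mono.deriv_nonneg

theorem th_deriv_one {x : ℝ} (h : 1 ≤ x) : deriv th x = 0 := by
  have hc : Continuous (deriv th) := th_smooth.continuous_deriv (by simp)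
  have h1 : ∀ y ∈ Ioi (1 : ℝ), deriv th y = 0 := by
    intro y hy
    have : th =ᶠ[𝓝 y] fun _ => (1 : ℝ) := by
      filter_upwards [lt_mem_nhds hy] with z hz using th_one hz.le
    rw [this.deriv_eq]
    simp
  have h2 : IsClosed {y | deriv th y = 0} := isClosed_eq hc continuous_const
  have h3 : closure (Ioi (1 : ℝ)) ⊆ {y | deriv th y = 0} := closure_minimal h1 h2
  rw [closure_Ioi] at h3
  exact h3 h

/-- `ϑ(s)/s`, smooth -/
def us (s : ℝ) : ℝ := th s / s

theorem us_smooth : ContDiff ℝ ∞ us := by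
  rw [contDiff_iff_contDiffAt]
  intro s
  by_cases h : s < 1 / 4
  · have : us =ᶠ[𝓝 s] fun _ => (0 : ℝ) := by
      filter_upwards [gt_mem_nhds h] with z hz
      unfold us
      rw [th_zero hz.le, zero_div]
    exact contDiffAt_const.congr_of_eventuallyEq this
  · push Not at h
    exact th_smooth.contDiffAt.div contDiffAt_id (by
      have : 0 < s := by linarith
      exact this.ne')

theorem mul_us (s : ℝ) : s * us s = th s := by
  unfold us
  by_cases h : s = 0
  · rw [h, th_zero (by norm_num)]; simp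
  · field_simp

/-- `∫_1^τ ϑ(s)/s ds` -/
def hs' (x : ℝ) : ℝ := ∫ s in (1 : ℝ)..x, us s

theorem hs_deriv (x : ℝ) : HasDerivAt hs' (us x) x :=
  intervalIntegral.integral_hasDerivAt_right (us_smooth.continuous.intervalIntegrable _ _)
    (us_smooth.continuous.stronglyMeasurableAtFilter _ _) us_smooth.continuous.continuousAt

theorem hs_smooth : ContDiff ℝ ∞ hs' := by
  rw [contDiff_infty_iff_deriv]
  refine ⟨fun x => (hs_deriv x).differentiableAt, ?_⟩
  have : deriv hs' = us := funext fun x => (hs_deriv x).deriv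
  rw [this]
  exact us_smooth

theorem hs_log {x : ℝ} (h : 1 ≤ x) : hs' x = Real.log x := by
  unfold hs'
  have h1 : ∫ s in (1 : ℝ)..x, us s = ∫ s in (1 : ℝ)..x, s⁻¹ := by
    apply intervalIntegral.integral_congr
    intro s hs
    rw [uIcc_of_le h] at hs
    show th s / s = s⁻¹
    rw [th_one hs.1, one_div]
  rw [h1, integral_inv_of_pos one_pos (by linarith)]
  simp

/-- the regularisation of `log ‖ζ‖` -/
def lr (r : ℝ) (w : ℂ) : ℝ := Real.log r + hs' ((w.re ^ 2 + w.im ^ 2) / r ^ 2) / 2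

theorem lr_smooth (r : ℝ) : ContDiff ℝ ∞ (lr r) := by
  unfold lr
  have h1 : ContDiff ℝ ∞ (fun w : ℂ => (w.re ^ 2 + w.im ^ 2) / r ^ 2) := by
    have h2 : ContDiff ℝ ∞ (fun w : ℂ => w.re) := Complex.reCLM.contDiff
    have h3 : ContDiff ℝ ∞ (fun w : ℂ => w.im) := Complex.imCLM.contDiff
    exact ((h2.pow 2).add (h3.pow 2)).div_const _
  exact contDiff_const.add ((hs_smooth.comp h1).div_const _)

theorem tau_fderiv (r : ℝ) (w : ℂ) : HasFDerivAt (fun w : ℂ => (w.re ^ 2 + w.im ^ 2) / r ^ 2)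
    ((2 * w.re / r ^ 2) • Complex.reCLM + (2 * w.im / r ^ 2) • Complex.imCLM) w := by
  have h2 : HasFDerivAt (fun w : ℂ => w.re) Complex.reCLM w := Complex.reCLM.hasFDerivAt
  have h3 : HasFDerivAt (fun w : ℂ => w.im) Complex.imCLM w := Complex.imCLM.hasFDerivAt
  have h4 := ((h2.pow 2).add (h3.pow 2)).mul_const (r ^ 2)⁻¹
  have h5 : (fun w : ℂ => (w.re ^ 2 + w.im ^ 2) / r ^ 2) =
      fun w : ℂ => (w.re ^ 2 + w.im ^ 2) * (r ^ 2)⁻¹ := by
    funext w; rw [div_eq_mul_inv]
  rw [h5]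
  refine h4.congr_fderiv ?_
  ext v
  simp
  ring

/-- `|w|²/r²` -/
def ta (r : ℝ) (w : ℂ) : ℝ := (w.re ^ 2 + w.im ^ 2) / r ^ 2

theorem lr_fderiv (r : ℝ) (w : ℂ) : HasFDerivAt (lr r)
    ((us (ta r w) / 2) • ((2 * w.re / r ^ 2) • Complex.reCLM +
      (2 * w.im / r ^ 2) • Complex.imCLM)) w := by
  have h1 := HasDerivAt.comp_hasFDerivAt (h₂ := hs') w (hs_deriv (ta r w)) (tau_fderiv r w)
  have h2 := (h1.mul_const (2 : ℝ)⁻¹).const_add (Real.log r)
  have h3 : lr r = fun w => Real.log r + (hs' ∘ fun w : ℂ => (w.re ^ 2 + w.im ^ 2) / r ^ 2) w *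
      (2 : ℝ)⁻¹ := by
    funext w
    unfold lr
    rw [div_eq_mul_inv _ (2 : ℝ)]
    rfl
  rw [h3]
  refine h2.congr_fderiv ?_
  ext v
  simp
  ring

theorem dS_lr (r : ℝ) : dS (lr r) = fun w => us (ta r w) * w.re / r ^ 2 := by
  funext w
  unfold dS
  rw [(lr_fderiv r w).fderiv]
  simp
  ring

theorem dT_lr (r : ℝ) : dT (lr r) = fun w => us (ta r w) * w.im / r ^ 2 := by
  funext w
  unfold dT
  rw [(lr_fderiv r w).fderiv]
  simp
  ring

theorem us_deriv (s : ℝ) : HasDerivAt us (deriv us s) s :=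
  (us_smooth.differentiable (by simp) s).hasDerivAt

theorem th_deriv (s : ℝ) : deriv th s = us s + s * deriv us s := by
  have h1 : HasDerivAt (fun s => s * us s) (1 * us s + s * deriv us s) s :=
    (hasDerivAt_id s).mul (us_deriv s)
  have h2 : (fun s => s * us s) = th := funext mul_us
  rw [h2] at h1
  rw [h1.deriv]
  ring

theorem lapC_lr (r : ℝ) (hr : 0 < r) (w : ℂ) : lapC (lr r) w = 2 / r ^ 2 * deriv th (ta r w) := by
  unfold lapC
  rw [dS_lr, dT_lr]
  have h1 := HasDerivAt.comp_hasFDerivAt (h₂ := us) w (us_deriv (ta r w)) (tau_fderiv r w)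
  have h2 : HasFDerivAt (fun w : ℂ => w.re) Complex.reCLM w := Complex.reCLM.hasFDerivAt
  have h3 : HasFDerivAt (fun w : ℂ => w.im) Complex.imCLM w := Complex.imCLM.hasFDerivAt
  have h4 := (h1.mul h2).mul_const (r ^ 2)⁻¹
  have h5 := (h1.mul h3).mul_const (r ^ 2)⁻¹
  have e1 : (fun w : ℂ => us (ta r w) * w.re / r ^ 2) = fun w : ℂ =>
      ((us ∘ ta r) * fun w : ℂ => w.re) w * (r ^ 2)⁻¹ := by
    funext w; rw [div_eq_mul_inv]; rfl
  have e2 : (fun w : ℂ => us (ta r w) * w.im / r ^ 2) = fun w : ℂ =>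
      ((us ∘ ta r) * fun w : ℂ => w.im) w * (r ^ 2)⁻¹ := by
    funext w; rw [div_eq_mul_inv]; rfl
  unfold dS dT
  rw [e1, e2, h4.fderiv, h5.fderiv, th_deriv]
  have hta : ta r w = (w.re ^ 2 + w.im ^ 2) / r ^ 2 := rfl
  simp
  generalize us (ta r w) = U
  generalize deriv us (ta r w) = D
  rw [hta]
  field_simp
  ring

/-- PACKET LOGR. -/
theorem logr : S_LOGR := by
  intro r hr
  have hta : ∀ ζ : ℂ, ta r ζ = ‖ζ‖ ^ 2 / r ^ 2 := by
    intro ζ
    unfold ta
    rw [← Complex.normSq_eq_norm_sq, Complex.normSq_apply]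
    ring
  have hta1 : ∀ ζ : ℂ, r ≤ ‖ζ‖ → 1 ≤ ta r ζ := by
    intro ζ hζ
    rw [hta, le_div_iff₀ (by positivity), one_mul]
    gcongr
  refine ⟨lr r, lr_smooth r, ?_, ?_, ?_, ?_⟩
  · intro ζ hζ
    show Real.log r + hs' (ta r ζ) / 2 = _
    have h0 : 0 < ‖ζ‖ := hr.trans_le hζ
    rw [hs_log (hta1 ζ hζ), hta, Real.log_div (by positivity) (by positivity), Real.log_pow,
      Real.log_pow]
    push_cast
    ring
  · intro ζ
    rw [lapC_lr r hr]
    exact mul_nonneg (by positivity) (th_deriv_nonneg _)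
  · intro ζ hζ
    rw [lapC_lr r hr, th_deriv_one (hta1 ζ hζ), mul_zero]
  · intro R hR
    have hR0 : 0 < R := hr.trans_le hR
    have h1 : ∫ ζ in Metric.ball (0 : ℂ) R, lapC (lr r) ζ =
        ∫ ζ : ℂ, indicator (Iio R) (fun y => 2 / r ^ 2 * deriv th (y ^ 2 / r ^ 2)) ‖ζ‖ := by
      rw [← integral_indicator measurableSet_ball]
      congr 1
      funext ζ
      by_cases h : ‖ζ‖ < R
      · rw [indicator_of_mem (by simpa using h), indicator_of_mem (mem_Iio.2 h), lapC_lr r hr, hta]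
      · rw [indicator_of_notMem (by simpa using h), indicator_of_notMem (by simpa using h)]
    rw [h1, integral_radial]
    have h2 : ∀ y : ℝ, y * indicator (Iio R) (fun y => 2 / r ^ 2 * deriv th (y ^ 2 / r ^ 2)) y =
        indicator (Iio R) (fun y => 2 * y / r ^ 2 * deriv th (y ^ 2 / r ^ 2)) y := by
      intro y
      by_cases h : y < R
      · rw [indicator_of_mem (mem_Iio.2 h), indicator_of_mem (mem_Iio.2 h)]
        ring
      · rw [indicator_of_notMem (by simpa using h), indicator_of_notMem (by simpa using h),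
          mul_zero]
    simp only [h2]
    rw [setIntegral_indicator measurableSet_Iio, Ioi_inter_Iio,
      ← integral_Ioc_eq_integral_Ioo, ← intervalIntegral.integral_of_le hR0.le]
    have h3 : ∀ y : ℝ, HasDerivAt (fun y => th (y ^ 2 / r ^ 2))
        (2 * y / r ^ 2 * deriv th (y ^ 2 / r ^ 2)) y := by
      intro y
      have h4 : HasDerivAt (fun y : ℝ => y ^ 2 / r ^ 2) (2 * y / r ^ 2) y := by
        have := (hasDerivAt_pow 2 y).div_const (r ^ 2)
        simpa using this
      have h5 : HasDerivAt th (deriv th (y ^ 2 / r ^ 2)) (y ^ 2 / r ^ 2) :=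
        (th_smooth.differentiable (by simp) _).hasDerivAt
      have h6 := HasDerivAt.comp (h₂ := th) y h5 h4
      rw [mul_comm]
      exact h6
    have hc : Continuous fun y : ℝ => 2 * y / r ^ 2 * deriv th (y ^ 2 / r ^ 2) := by
      have h7 : Continuous (deriv th) := th_smooth.continuous_deriv (by simp)
      have h8 : Continuous fun y : ℝ => y ^ 2 / r ^ 2 := by fun_prop
      have h9 : Continuous fun y : ℝ => 2 * y / r ^ 2 := by fun_prop
      exact h9.mul (h7.comp h8)
    rw [intervalIntegral.integral_eq_sub_of_hasDerivAt (fun y _ => h3 y)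
      (hc.intervalIntegrable _ _)]
    have h10 : 1 ≤ R ^ 2 / r ^ 2 := by
      rw [le_div_iff₀ (by positivity), one_mul]
      gcongr
    rw [th_one h10, th_zero (by norm_num)]
    ring

end Pool.Agent.Helper57.AB
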