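import Pool.Agent.Helper57.AB.GRL
import Pool.Agent.Helper57.AB.LINV
import Pool.Agent.Helper57.AB.FHAT

/-! # Packet GDN of project AB (MP_1ef41b_an): descent of invariant functions. -/

open MeasureTheory Set Filter Topology
open scoped ContDiff

noncomputable section

namespace Pool.Agent.Helper57.AB

open Pool.Agent.Helper24.AB Pool.Agent.Helper15.AB

open Classical in
/-- the function `(g' / det Θ') ∘ Θ⁻¹` -/
def gdn0 (W : Set V4) (Θ : V4 → V4) (g' : V4 → ℂ) (z : V4) : ℂ :=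
  if h : ∃ P, P ∈ closure W ∧ Θ P = z then g' h.choose * ((fderiv ℂ Θ h.choose).det)⁻¹ else 0

/-- PACKET GDN. -/
theorem gdn (hAFF : S_AFF) (hGRL : S_GRL) (hINVF : S_INVF) (hUNB : S_UNB) (hCLW : S_CLW)
    (hIMG : S_IMG) : S_GDN := by
  intro η a r W Θ hT hΘ g' hg hgi hgh
  have hO : IsOpen (Unb η) := (hUNB η).1
  have hLINV : S_LINV := linv hUNB
  obtain ⟨hWo, hcl, hclr, _, hclinv⟩ := hCLW η a r W hT
  obtain ⟨_, hΘW, _, _, hclΘ, hbW, hbc⟩ := hIMG η a r W Θ hT hΘ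
  have hdet := fhat_det hAFF hGRL hO hΘ
  have hhol := fhat_holo hO hΘ
  have hUinv : ∀ P P', GamRel P P' → P ∈ Unb η → P' ∈ Unb η :=
    fun P P' h => hGRL.2.2.2.2.1 η P P' h
  have happ : ∀ P ∈ closure W, gdn0 W Θ g' (Θ P) = g' P * ((fderiv ℂ Θ P).det)⁻¹ := by
    intro P hP
    have h : ∃ Q, Q ∈ closure W ∧ Θ Q = Θ P := ⟨P, hP, rfl⟩
    unfold gdn0
    rw [dif_pos h]
    obtain ⟨h1, h3⟩ := h.choose_spec
    have hrel : GamRel P h.choose := hΘ.inj P (hT.sub hP) _ (hT.sub h1) h3.symm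
    rw [hINVF (closure W) g' hclinv hgi P hP _ hrel,
      hINVF (Unb η) (fun P => (fderiv ℂ Θ P).det) hUinv hdet P (hT.sub hP) _ hrel]
  have hq : ContDiffOn ℝ ∞ (fun P => g' P * ((fderiv ℂ Θ P).det)⁻¹) (closure W) := by
    refine hg.mul (ContDiffOn.inv ?_ fun P hP => hΘ.der P (hT.sub hP))
    exact (Pool.Agent.Helper95.Lin.holo_contDiffOn_real hO hhol).mono hT.sub
  have hqh : DifferentiableOn ℂ (fun P => g' P * ((fderiv ℂ Θ P).det)⁻¹) W := by
    have hWU : W ⊆ Unb η := subset_closure.trans hT.sub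
    refine hgh.mul (DifferentiableOn.inv (hhol.mono hWU) fun P hP => hΘ.der P (hWU hP))
  refine ⟨gdn0 W Θ g', ?_, ?_, ?_⟩
  · rintro z hz
    have hz' := hz
    rw [hclΘ] at hz'
    obtain ⟨P, hP, rfl⟩ := hz'
    obtain ⟨S, Ψ, hS, hPS, hΨ, hΨP, hinv, _⟩ := hLINV η Θ hΘ P (hT.sub hP)
    have hm : MapsTo Ψ (closure (Θ '' W) ∩ S) (closure W) := by
      rintro y ⟨hy, hyS⟩
      obtain ⟨h1, h2⟩ := hinv y hyS
      apply hbc _ h1
      rw [h2, ← hclΘ]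
      exact hy
    have h1 : ContDiffOn ℝ ∞ Ψ S := Pool.Agent.Helper95.Lin.holo_contDiffOn_real hS hΨ
    have h2 : ContDiffOn ℝ ∞ (fun y => g' (Ψ y) * ((fderiv ℂ Θ (Ψ y)).det)⁻¹)
        (closure (Θ '' W) ∩ S) := hq.comp (h1.mono inter_subset_right) hm
    have h3 : ContDiffOn ℝ ∞ (gdn0 W Θ g') (closure (Θ '' W) ∩ S) := by
      refine h2.congr fun y hy => ?_
      have h4 := happ _ (hm hy)
      rw [(hinv y hy.2).2] at h4
      exact h4
    exact (contDiffWithinAt_inter (hS.mem_nhds hPS)).1 (h3 _ ⟨hz, hPS⟩)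
  · rintro z ⟨P, hP, rfl⟩
    obtain ⟨S, Ψ, hS, hPS, hΨ, hΨP, hinv, _⟩ := hLINV η Θ hΘ P (hT.sub (subset_closure hP))
    have hm : MapsTo Ψ (Θ '' W ∩ S) W := by
      rintro y ⟨hy, hyS⟩
      obtain ⟨h1, h2⟩ := hinv y hyS
      apply hbW _ h1
      rw [h2]
      exact hy
    have h2 : DifferentiableOn ℂ (fun y => g' (Ψ y) * ((fderiv ℂ Θ (Ψ y)).det)⁻¹)
        (Θ '' W ∩ S) := hqh.comp (hΨ.mono inter_subset_right) hm
    have h3 : DifferentiableOn ℂ (gdn0 W Θ g') (Θ '' W ∩ S) := by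
      refine h2.congr fun y hy => ?_
      have h4 := happ _ (subset_closure (hm hy))
      rw [(hinv y hy.2).2] at h4
      exact h4
    exact (h3.differentiableAt ((hΘW.inter hS).mem_nhds
      ⟨⟨P, hP, rfl⟩, hPS⟩)).differentiableWithinAt
  · intro P hP
    rw [happ P hP, mul_assoc, inv_mul_cancel₀ (hΘ.der P (hT.sub hP)), mul_one]

end Pool.Agent.Helper57.AB
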