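import Pool.Agent.Helper57.AB.FB

/-! # Packet VLB of project AB (MP_1ef41b_an): the lower bound for `V`. -/

open MeasureTheory Set Filter Topology
open scoped ContDiff

noncomputable section

namespace Pool.Agent.Helper57.AB

open Pool.Agent.Helper24.AB

/-- PACKET VLB. -/
theorem vlb (hNUM : S_NUM) (hQF : S_QF) (hTEX : S_TEX) (hVID : S_VID) : S_VLB := by
  intro a A s hs α α' l hne w hw
  have ha := hs.a_pos
  have ha2 := hs.a_le
  have hA := hs.A_pos
  have hre : w.re ∈ Ioo (-a) a := abs_lt.1 hw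
  have hs0 : 0 < s w.re := hs.pos _ hre
  have hw' : |w.re| < a := hw
  have hsq : w.re ^ 2 < a ^ 2 := by
    rw [← sq_abs w.re]
    exact pow_lt_pow_left₀ hw' (abs_nonneg _) (by norm_num)
  have he : 0 < a ^ 2 - w.re ^ 2 := by linarith
  have ha4 : a ^ 2 ≤ 1 / 4 := by nlinarith
  have hk := kap_pos
  have hk2 : kap ^ 2 < 0.0236 := hNUM.2.2.2.2.2.2.2.2.2.2.2.2.2.2.2.2.2.1
  obtain ⟨_, _, _, _, hq1, hq0, _, hq3, hq2, _, _⟩ := hQF
  rw [hVID a A s hs α α' l hne w hw]
  obtain ⟨_, _, _, hF4, hFs, hFt⟩ := fb a A s hs α α' l w hw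
  have hF : 0 < Ff a A s α α' l w := (hTEX a A s hs α α' l hne w hw).1
  set F : ℝ := Ff a A s α α' l w with hFdef
  set V1 : ℝ := qf (2 * Real.sqrt F) * (-lapC (H0f a A s α α' l) w) with hV1
  have hy : 0 < 2 * Real.sqrt F := by positivity
  set y : ℝ := 2 * Real.sqrt F with hydef
  have hyy : y ^ 2 = 4 * F := by rw [hydef, mul_pow, Real.sq_sqrt hF.le]; ring
  have hsqe : Real.sqrt (a ^ 2 - w.re ^ 2) ^ 2 = a ^ 2 - w.re ^ 2 := Real.sq_sqrt he.le
  set e : ℝ := a ^ 2 - w.re ^ 2 with hedef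
  have hea : e ≤ a ^ 2 := by rw [hedef]; nlinarith [sq_nonneg w.re]
  -- the quantity `X = a²/e²`
  set X : ℝ := a ^ 2 / e ^ 2 with hX
  have hX4 : 4 ≤ X := by
    rw [hX, le_div_iff₀ (by positivity)]
    have h1 : e ^ 2 ≤ a ^ 2 * a ^ 2 := by nlinarith
    nlinarith
  -- last term
  have hgrad : deriv qf y * (dS (Ff a A s α α' l) w ^ 2 + dT (Ff a A s α α' l) w ^ 2) / (2 * F) ≤
      1.65375 * (w.re ^ 2 / e ^ 2) + 1.5 * kap ^ 2 := by
    have h1 : deriv qf y ≤ 3 / (4 * F) := by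
      rw [le_div_iff₀ (by positivity), ← hyy, mul_comm]
      exact hq3 y hy
    have h2 : dS (Ff a A s α α' l) w ^ 2 ≤ (21 / 10 * |w.re| / e * F) ^ 2 := by
      rw [← sq_abs]
      gcongr
    have h3 : dT (Ff a A s α α' l) w ^ 2 ≤ (2 * kap * F) ^ 2 := by
      rw [← sq_abs]
      gcongr
    have h4 : 0 ≤ dS (Ff a A s α α' l) w ^ 2 + dT (Ff a A s α α' l) w ^ 2 := by positivity
    calc _ ≤ 3 / (4 * F) * ((21 / 10 * |w.re| / e * F) ^ 2 + (2 * kap * F) ^ 2) / (2 * F) := by
          gcongr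
      _ = _ := by
        rw [mul_pow (21 / 10 * |w.re| / e), div_pow (21 / 10 * |w.re|), mul_pow (21 / 10), sq_abs]
        field_simp
        ring
  have hs2 : deriv (deriv s) w.re ≤ 0 := by
    have h1 := hs.k1 _ hre
    have h2 : 0 ≤ kap ^ 2 * s w.re := by positivity
    have h3 : 0 ≤ kap ^ 2 * A := by positivity
    linarith
  have hterm2 : (deriv (deriv s) w.re / s w.re - deriv s w.re ^ 2 / s w.re ^ 2) / 2 ≤ 0 := by
    have h1 : deriv (deriv s) w.re / s w.re ≤ 0 := div_nonpos_of_nonpos_of_nonneg hs2 hs0.le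
    have h2 : 0 ≤ deriv s w.re ^ 2 / s w.re ^ 2 := by positivity
    linarith
  -- `κ²Au(1-q) ≤ 0.0118 X`
  have hks : kap ^ 2 * A / s w.re ≤ 0.0118 * X := by
    by_cases h : |w.re| ≤ 19 / 20 * a
    · have h1 := hs.ge_mid _ h
      have h2 : kap ^ 2 * A / s w.re ≤ 2 * kap ^ 2 := by
        rw [div_le_iff₀ hs0]
        nlinarith [sq_nonneg kap]
      linarith
    · push Not at h
      rw [hs.edge _ h.le hw']
      rw [← hedef]
      have hse : 0 < Real.sqrt e := Real.sqrt_pos.2 he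
      have hsle : Real.sqrt e ≤ a := by
        rw [Real.sqrt_le_left ha.le]
        exact hea
      have h1 : kap ^ 2 * A / (2 * A * Real.sqrt e / a) = kap ^ 2 * a / (2 * Real.sqrt e) := by
        field_simp
      rw [h1, hX, div_le_iff₀ (by positivity)]
      have h2 : (0.0118 : ℝ) * (a ^ 2 / e ^ 2) * (2 * Real.sqrt e) =
          0.0236 * a ^ 2 / (Real.sqrt e) ^ 3 := by
        have hq : e ^ 2 = Real.sqrt e ^ 4 := by
          nth_rewrite 1 [← hsqe]
          ring
        rw [hq]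
        field_simp
        ring
      rw [h2, le_div_iff₀ (by positivity)]
      have h3 : Real.sqrt e ^ 3 ≤ a ^ 3 := by gcongr
      have h4 : kap ^ 2 * a * Real.sqrt e ^ 3 ≤ 0.0236 * a * a ^ 3 := by
        have := hk2.le
        gcongr
      have h5 : 0.0236 * a * a ^ 3 ≤ 0.0236 * a ^ 2 := by nlinarith [sq_nonneg a]
      linarith
  have hu : kap ^ 2 * A * uf α w.im * (1 - qf y) ≤ 0.0118 * X := by
    have h1q : 0 < 1 - qf y := by
      have := (abs_lt.1 (hq1 y)).2
      linarith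
    by_cases h : uf α w.im ≤ 0
    · have h1 : kap ^ 2 * A * uf α w.im * (1 - qf y) ≤ 0 := by
        apply mul_nonpos_of_nonpos_of_nonneg _ h1q.le
        exact mul_nonpos_of_nonneg_of_nonpos (by positivity) h
      linarith
    · push Not at h
      refine le_trans ?_ hks
      have h2 : 1 - qf y ≤ 2 / y := hq2 y hy
      have h3 : s w.re * uf α w.im ≤ Real.sqrt F := by
        apply Real.le_sqrt_of_sq_le
        rw [mul_pow]
        exact hF4
      have h4 : 2 / y ≤ 1 / (s w.re * uf α w.im) := by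
        rw [hydef, div_le_div_iff₀ (by positivity) (by positivity)]
        linarith
      calc kap ^ 2 * A * uf α w.im * (1 - qf y)
          ≤ kap ^ 2 * A * uf α w.im * (1 / (s w.re * uf α w.im)) := by
            gcongr
            exact h2.trans h4
        _ = kap ^ 2 * A / s w.re := by field_simp
  have hmain : (a ^ 2 + w.re ^ 2) / e ^ 2 = X + w.re ^ 2 / e ^ 2 := by
    rw [hX]; ring
  have hwX : w.re ^ 2 / e ^ 2 ≤ X := by
    rw [hX]
    gcongr
  have hq4 : a ^ 2 / (4 * e ^ 2) = X / 4 := by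
    rw [hX]; field_simp
  rw [hmain, hq4]
  have hwX0 : 0 ≤ w.re ^ 2 / e ^ 2 := by positivity
  linarith

end Pool.Agent.Helper57.AB
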